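import Pool.Agent.H531.RU.One
import Pool.Agent.H531.GP.Fin

set_option autoImplicit false

/-!
# All the patterns with up to `(e - δ) log log X` elements
-/

open Finset MeasureTheory ProbabilityTheory Filter Topology

namespace Pool.Agent.H531.RU

open Pool.Agent.T2H31.HV Pool.Agent.H531.SI Pool.Agent.H531.MS
open Pool.Agent.H531.CP hiding pos Par low_all ratio_all low_exp
open Pool.Agent.H531.GP hiding Par low_all ratio_all low_exp vB_small dB_small claim1 claim2 one_pattern AllPat all_prob main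
open Pool.Agent.T2H32.BF hiding PI pos

/-- all the patterns at the scale `k` -/
def AllPat (z : ℕ → ℕ) (ε A : ℝ) (k : ℕ) (b : ℕ → ℕ) : Prop :=
  ∀ (H : Finset ℕ) (G : ℕ), 1 ≤ H.card → (H.card : ℝ) ≤ A * Real.log k → Adm H → (∀ u ∈ H, u ≤ G) →
    (G : ℝ) ≤ Real.exp ((2 - ε) * Real.log k) → PatAt z b H G k

section prob

variable {Ω : Type} [MeasurableSpace Ω] {P : Measure Ω} {a : ℕ → Ω → ℕ}

theorem all_prob (h : Model P a) (z : ℕ → ℕ) (hz : Monotone z)
    (hzV : Tendsto (fun n => V (z n) * Real.log n) atTop (𝓝 1)) (hzt : Tendsto z atTop atTop)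
    (ε : ℝ) (hε : 0 < ε) (hε1 : ε ≤ 1) (A : ℝ) (hA0 : 0 < A) (hA : A < Real.exp 1) :
    ∀ᶠ k : ℕ in atTop, P.real {ω | ¬ ((∀ p, p.Prime → a p ω < p) → AllPat z ε A k fun p => a p ω)} ≤
      1 / (k : ℝ) ^ 2 := by
  classical
  have := prob h
  have hA3 : A < 3 := by
    have := Real.exp_one_lt_d9
    linarith
  filter_upwards [one_pattern h z hz hzV hzt ε hε hε1 A hA0 hA, eventually_ge_atTop 2,
    hlog.eventually_ge_atTop 3] with k hk hk1 hL3
  set L := Real.log k with hL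
  have hL0 : 0 < L := by linarith
  have hk0 : (0 : ℝ) < k := by exact_mod_cast (by omega : 0 < k)
  have ek : Real.exp L = k := Real.exp_log hk0
  have ek2 : (k : ℝ) ^ 2 = Real.exp (2 * L) := by
    rw [two_mul, Real.exp_add, ek]
    ring
  set ν := ⌊A * L⌋₊ with hν
  have hνA : (ν : ℝ) ≤ A * L := Nat.floor_le (by positivity)
  have hν3 : (ν : ℝ) ≤ 3 * L := hνA.trans (mul_le_mul_of_nonneg_right hA3.le hL0.le)
  set M := k ^ 2 + 1 with hM
  set bad : (Fin ν → Fin M) × Fin M → Set Ω := fun x =>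
    if (1 ≤ (univ.image fun i => (x.1 i : ℕ)).card ∧ ((univ.image fun i => (x.1 i : ℕ)).card : ℝ) ≤ A * L ∧
        Adm (univ.image fun i => (x.1 i : ℕ)) ∧ (∀ u ∈ (univ.image fun i => (x.1 i : ℕ)), u ≤ (x.2 : ℕ)) ∧
        ((x.2 : ℕ) : ℝ) ≤ Real.exp ((2 - ε) * L)) then
      {ω | (∀ p, p.Prime → a p ω < p) ∧ ¬ PatAt z (fun p => a p ω) (univ.image fun i => (x.1 i : ℕ)) x.2 k}
    else ∅ with hbad
  have hsub : {ω | ¬ ((∀ p, p.Prime → a p ω < p) → AllPat z ε A k fun p => a p ω)} ⊆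
      ⋃ x ∈ (univ : Finset ((Fin ν → Fin M) × Fin M)), bad x := by
    intro ω hω
    simp only [Set.mem_ofPred_eq, Classical.not_imp] at hω
    obtain ⟨hω1, hω2⟩ := hω
    unfold AllPat at hω2
    push Not at hω2
    obtain ⟨H, G, h1, h2, h3, h4, h5, h6⟩ := hω2
    have h2ν : H.card ≤ ν := Nat.le_floor h2
    have hGM : G < M := by
      have h7 : (G : ℝ) ≤ (k : ℝ) ^ 2 := by
        refine h5.trans ?_
        rw [ek2]
        apply Real.exp_le_exp.2
        apply mul_le_mul_of_nonneg_right _ hL0.le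
        linarith
      have h8 : G ≤ k ^ 2 := by exact_mod_cast h7
      omega
    -- a parametrisation
    obtain ⟨f, hf⟩ : ∃ f : Fin ν → ℕ, univ.image f = H := by
      set e := H.equivFin with he
      have hpos : 0 < H.card := h1
      refine ⟨fun i => if hi : (i : ℕ) < H.card then (e.symm ⟨i, hi⟩ : ℕ) else (e.symm ⟨0, hpos⟩ : ℕ), ?_⟩
      ext u
      simp only [mem_image, mem_univ, true_and]
      constructor
      · rintro ⟨i, rfl⟩
        split_ifs
        · exact (e.symm _).2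
        · exact (e.symm _).2
      · intro hu
        have h7 := (e ⟨u, hu⟩).2
        refine ⟨⟨e ⟨u, hu⟩, lt_of_lt_of_le h7 h2ν⟩, ?_⟩
        rw [dif_pos h7]
        simp
    have hfM : ∀ i, f i < M := fun i => by
      have h7 : f i ∈ H := by
        rw [← hf]
        exact mem_image_of_mem _ (mem_univ i)
      exact lt_of_le_of_lt (h4 _ h7) hGM
    rw [Set.mem_iUnion₂]
    refine ⟨(fun i => ⟨f i, hfM i⟩, ⟨G, hGM⟩), mem_univ _, ?_⟩
    have hfH : (univ.image fun i : Fin ν => f i) = H := hf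
    simp only [hbad]
    rw [hfH, if_pos ⟨h1, h2, h3, h4, h5⟩]
    exact ⟨hω1, h6⟩
  have hbd : ∀ x ∈ (univ : Finset ((Fin ν → Fin M) × Fin M)), P.real (bad x) ≤ Real.exp (-(10 * L ^ 2)) := by
    intro x _
    simp only [hbad]
    split_ifs with hc
    · exact hk _ _ hc.1 hc.2.1 hc.2.2.1 hc.2.2.2.1 hc.2.2.2.2
    · rw [measureReal_empty]
      positivity
  have hMe : (M : ℝ) ≤ Real.exp (2 * L + 1) := by
    have h7 : (1 : ℝ) ≤ (k : ℝ) ^ 2 := one_le_pow₀ (by exact_mod_cast (by omega : 1 ≤ k))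
    have h8 : (M : ℝ) = (k : ℝ) ^ 2 + 1 := by
      rw [hM]
      push_cast
      ring
    have h9 : (2 : ℝ) ≤ Real.exp 1 := by
      have := Real.exp_one_gt_d9
      linarith
    calc (M : ℝ) ≤ (k : ℝ) ^ 2 * 2 := by rw [h8]; linarith
      _ ≤ (k : ℝ) ^ 2 * Real.exp 1 := by gcongr
      _ = Real.exp (2 * L + 1) := by rw [Real.exp_add, ek2]
  calc P.real {ω | ¬ ((∀ p, p.Prime → a p ω < p) → AllPat z ε A k fun p => a p ω)}
      ≤ P.real (⋃ x ∈ (univ : Finset ((Fin ν → Fin M) × Fin M)), bad x) := measureReal_mono hsub (measure_ne_top P _)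
    _ ≤ ∑ x ∈ (univ : Finset ((Fin ν → Fin M) × Fin M)), P.real (bad x) := measureReal_biUnion_finset_le _ _
    _ ≤ ∑ x ∈ (univ : Finset ((Fin ν → Fin M) × Fin M)), Real.exp (-(10 * L ^ 2)) := sum_le_sum hbd
    _ = (M : ℝ) ^ (ν + 1) * Real.exp (-(10 * L ^ 2)) := by
        rw [sum_const, nsmul_eq_mul]
        congr 1
        rw [card_univ, Fintype.card_prod, Fintype.card_fun, Fintype.card_fin, Fintype.card_fin]
        push_cast
        ring
    _ ≤ Real.exp (2 * L + 1) ^ (ν + 1) * Real.exp (-(10 * L ^ 2)) := by gcongr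
    _ = Real.exp (((ν : ℝ) + 1) * (2 * L + 1) + -(10 * L ^ 2)) := by
        rw [← Real.exp_nat_mul, ← Real.exp_add]
        push_cast
        rfl
    _ ≤ Real.exp (-(2 * L)) := by
        apply Real.exp_le_exp.2
        have h1 : ((ν : ℝ) + 1) * (2 * L + 1) ≤ (3 * L + 1) * (2 * L + 1) := by gcongr
        have h2 : 3 * L ≤ L ^ 2 := by
          rw [pow_two]
          exact mul_le_mul_of_nonneg_right hL3 hL0.le
        have e : (3 * L + 1) * (2 * L + 1) = 6 * L ^ 2 + 5 * L + 1 := by ring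
        rw [e] at h1
        linarith
    _ = 1 / (k : ℝ) ^ 2 := by rw [Real.exp_neg, one_div, ek2]

/-- **All the patterns.** -/
theorem main (h : Model P a) (z : ℕ → ℕ) (hz : Monotone z)
    (hzV : Tendsto (fun n => V (z n) * Real.log n) atTop (𝓝 1)) :
    ∀ᵐ ω ∂P, ∀ δ : ℝ, 0 < δ → ∀ᶠ X : ℕ in atTop, ∀ (H : Finset ℕ) (G : ℕ), H.Nonempty →
      (H.card : ℝ) ≤ (Real.exp 1 - δ) * Real.log (Real.log X) →
      Adm H → (∀ u ∈ H, u ≤ G) → (G : ℝ) ≤ Real.exp ((2 - δ) * Real.log (Real.log X)) →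
      ∃ n, 1 ≤ n ∧ n + G ≤ X ∧ ∀ m ≤ G, (n + m ∈ (R z fun p => a p ω) ↔ m ∈ H) := by
  have hzt := z_top z hzV
  have he27 := Real.exp_one_gt_d9
  have he28 := Real.exp_one_lt_d9
  set e : ℕ → ℝ := fun n => 1 / ((n : ℝ) + 2) with he
  have he0 : ∀ n, 0 < e n := fun n => by simp only [he]; positivity
  have he1 : ∀ n, e n ≤ 1 := fun n => by
    simp only [he]
    rw [div_le_one (by positivity)]
    have : (0 : ℝ) ≤ n := Nat.cast_nonneg n
    linarith
  have hae : ∀ᵐ ω ∂P, ∀ n : ℕ, ∀ᶠ k : ℕ in atTop,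
      ((∀ p, p.Prime → a p ω < p) → AllPat z (e n) (Real.exp 1 - e n) k fun p => a p ω) := by
    rw [ae_all_iff]
    intro n
    exact bc h (fun k b => (∀ p, p.Prime → b p < p) → AllPat z (e n) (Real.exp 1 - e n) k b)
      (all_prob h z hz hzV hzt (e n) (he0 n) (he1 n) (Real.exp 1 - e n) (by linarith [he1 n]) (by linarith [he0 n]))
  filter_upwards [hae, ae_lt h] with ω hω hlt δ hδ
  obtain ⟨n, hn⟩ := exists_nat_gt (2 / δ)
  set ε := e n with hε
  have hε0 := he0 n
  have hε1 := he1 n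
  rw [← hε] at hε0 hε1
  have hεδ : ε ≤ δ / 2 := by
    simp only [hε, he]
    rw [div_le_div_iff₀ (by positivity) (by norm_num)]
    rw [div_lt_iff₀ hδ] at hn
    nlinarith
  obtain ⟨k1, hk1⟩ := eventually_atTop.1 ((hω n).and (E_top.eventually_ge_atTop 8))
  have hlogX : Tendsto (fun X : ℕ => Real.log X) atTop atTop := Real.tendsto_log_atTop.comp tendsto_natCast_atTop_atTop
  filter_upwards [hlogX.eventually_ge_atTop (max ((k1 : ℝ) + 1) (12 / δ + 3)), eventually_ge_atTop 1] with X hX hX1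
  intro H G hH1 hH2 hAdm hHG hG
  have hX0 : (0 : ℝ) < X := by exact_mod_cast hX1
  set L := Real.log X with hLdef
  have hLk1 : (k1 : ℝ) + 1 ≤ L := (le_max_left _ _).trans hX
  have hLδ : 12 / δ + 3 ≤ L := (le_max_right _ _).trans hX
  have hδ100 : 0 < 12 / δ := by positivity
  have hL3 : 3 ≤ L := by linarith
  have hL0 : 0 < L := by linarith
  set k := ⌊L⌋₊ with hk
  have hkL : (k : ℝ) ≤ L := Nat.floor_le hL0.le
  have hLk : L < k + 1 := Nat.lt_floor_add_one L
  have hkk1 : k1 ≤ k := Nat.le_floor (by linarith)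
  have hEX : E k ≤ X := by
    unfold E
    apply Nat.ceil_le.2
    rw [← Real.exp_log hX0]
    exact Real.exp_le_exp.2 hkL
  obtain ⟨hall, hE8⟩ := hk1 k hkk1
  have hk0 : (0 : ℝ) < k := by linarith
  -- the logarithms
  have hl1 : Real.log L - 2 / L ≤ Real.log k := by
    have h1 : Real.log (L / k) ≤ L / k - 1 := Real.log_le_sub_one_of_pos (by positivity)
    rw [Real.log_div hL0.ne' hk0.ne'] at h1
    have h2 : L / k - 1 ≤ 2 / L := by
      rw [div_sub_one hk0.ne', div_le_div_iff₀ hk0 hL0]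
      nlinarith
    linarith
  have hl2 : 1 ≤ Real.log L := by
    rw [Real.le_log_iff_exp_le hL0]
    linarith
  have hl3 : 2 / L ≤ δ / 6 := by
    rw [div_le_div_iff₀ hL0 (by norm_num)]
    have h1 : 12 / δ ≤ L := by linarith
    rw [div_le_iff₀ hδ] at h1
    linarith
  have hδε : δ / 2 ≤ δ - ε := by linarith
  have hl4 : δ / 2 ≤ (δ - ε) * Real.log L := by
    have : (δ - ε) * 1 ≤ (δ - ε) * Real.log L := mul_le_mul_of_nonneg_left hl2 (by linarith)
    linarith
  have h2L : 0 < 2 / L := by positivity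
  have hcard : (H.card : ℝ) ≤ (Real.exp 1 - ε) * Real.log k := by
    refine hH2.trans ?_
    have h1 : (Real.exp 1 - ε) * (Real.log L - 2 / L) ≤ (Real.exp 1 - ε) * Real.log k :=
      mul_le_mul_of_nonneg_left hl1 (by linarith)
    have h2 : (Real.exp 1 - ε) * (2 / L) ≤ 3 * (2 / L) := mul_le_mul_of_nonneg_right (by linarith) h2L.le
    have e1 : (Real.exp 1 - ε) * (Real.log L - 2 / L) = (Real.exp 1 - δ) * Real.log L + (δ - ε) * Real.log L -
      (Real.exp 1 - ε) * (2 / L) := by ring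
    linarith
  have hGk : (G : ℝ) ≤ Real.exp ((2 - ε) * Real.log k) := by
    refine hG.trans ?_
    apply Real.exp_le_exp.2
    have h1 : (2 - ε) * (Real.log L - 2 / L) ≤ (2 - ε) * Real.log k :=
      mul_le_mul_of_nonneg_left hl1 (by linarith)
    have h2 : (2 - ε) * (2 / L) ≤ 3 * (2 / L) := mul_le_mul_of_nonneg_right (by linarith) h2L.le
    have e1 : (2 - ε) * (Real.log L - 2 / L) = (2 - δ) * Real.log L + (δ - ε) * Real.log L -
      (2 - ε) * (2 / L) := by ring
    linarith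
  obtain ⟨n0, hn1, hn2, hn3⟩ := hall hlt H G (card_pos.2 hH1) hcard hAdm hHG hGk
  refine ⟨n0, ?_, hn2.trans hEX, hn3⟩
  have : 1 ≤ E k / 8 := by omega
  omega

end prob

end Pool.Agent.H531.RU
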