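import Pool.Agent.H531.RU.Ph1

set_option autoImplicit false

/-!
# One pattern at one scale: the phases
-/

open Finset MeasureTheory ProbabilityTheory Filter Topology

namespace Pool.Agent.H531.RU

open Pool.Agent.T2H31.HV Pool.Agent.H531.SI Pool.Agent.H531.MS
open Pool.Agent.H531.CP hiding pos Par low_all ratio_all low_exp
open Pool.Agent.H531.GP hiding Par low_all ratio_all low_exp vB_small dB_small
open Pool.Agent.T2H32.BF hiding PI pos

section prob

variable {Ω : Type} [MeasurableSpace Ω] {P : Measure Ω} {a : ℕ → Ω → ℕ}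

omit [MeasurableSpace Ω] in
theorem Gd_all (k Y s1 : ℕ) (σ : ℕ → ℕ) (H T0 : Finset ℕ) (J : ℕ) (b : ℕ → ℕ) (hT : T0.card ≤ s1) :
    Gd k Y s1 σ H T0 J b = ST H (base k σ b) (primorial (wk k)) (Ico J (2 * J)) (PI (wk k) Y) b := by
  unfold Gd
  refine filter_true_of_mem fun j _ => ?_
  unfold TS1
  refine le_trans ?_ hT
  exact (Sw_card_le _ _ _).trans card_image_le

/-- **First phase.** -/
theorem claim1 (h : Model P a) (M : ℕ) (hM : 20 ≤ M) (A : ℝ) (hA0 : 0 < A) (hA : A < Real.exp 1) :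
    ∃ κ : ℝ, 0 < κ ∧ ∀ᶠ k : ℕ in atTop, ∀ (σ : ℕ → ℕ) (H T0 : Finset ℕ) (s1 J : ℕ), 1 ≤ H.card →
      (H.card : ℝ) ≤ A * Real.log k → T0.card ≤ s1 → Yk M k ≤ J →
      P.real {ω | ((Gd k (Yk M k) s1 σ H T0 J fun p => a p ω).card : ℝ) < 1 / (2 * Yk M k) * J} ≤
        Real.exp (-(Real.exp (κ * Real.log k) / 4)) := by
  have := prob h
  obtain ⟨κ, hκ0, hκ⟩ := surv_many' h M hM A hA0 hA
  refine ⟨κ, hκ0, ?_⟩
  filter_upwards [hκ, wk_le, Yk_bounds M hM] with k hmany hwk hYb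
  intro σ H T0 s1 J hH1 hHA hT hYJ
  have hwY : wk k ≤ Yk M k := hwk.trans ((Nat.le_self_pow (by norm_num) k).trans hYb.1.1)
  have hun : PN (wk k) ∪ PI (wk k) (Yk M k) = PN (Yk M k) := (PN_union (wk k) (Yk M k) hwY).symm
  refine cond_one h (PN (wk k)) (PI (wk k) (Yk M k)) (PN_PI_disj _ _)
    (fun b => ((Gd k (Yk M k) s1 σ H T0 J b).card : ℝ) < 1 / (2 * Yk M k) * J) ?_ _ (Real.exp_pos _).le ?_
  · intro b b' hb
    rw [hun] at hb
    rw [Gd_congr k (Yk M k) s1 σ H T0 J b b' hwY hb]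
  · intro α
    refine le_trans (measureReal_mono ?_ (measure_ne_top _ _)) (hmany H (base k σ α) J hH1 hHA hYJ)
    intro ω hω
    have hω : ((Gd k (Yk M k) s1 σ H T0 J (fun i => if i ∈ PN (wk k) then α i else a i ω)).card : ℝ) <
      1 / (2 * Yk M k) * J := hω
    rw [Gd_all _ _ _ _ _ _ _ _ hT] at hω
    have h1 : base k σ (fun i => if i ∈ PN (wk k) then α i else a i ω) = base k σ α :=
      base_congr k σ _ _ fun p hp => if_pos hp
    have h2 : ∀ p ∈ PI (wk k) (Yk M k), (if p ∈ PN (wk k) then α p else a p ω) = a p ω := fun p hp =>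
      if_neg fun h3 => disjoint_left.1 (PN_PI_disj _ _) h3 hp
    rw [h1, ST_congr _ _ _ _ _ _ (fun p => a p ω) h2] at hω
    exact hω.le

/-- **Second phase.** -/
theorem claim2 (h : Model P a) :
    ∀ᶠ k : ℕ in atTop, ∀ (σ : ℕ → ℕ) (H T0 : Finset ℕ) (G J Y Z X s1 ν : ℕ) (c1 : ℝ), 0 < c1 → PY k Y Z (s1 + ν) →
      2 * ν + 1 ≤ k → Nat.log 2 X ≤ 3 * k → H.card ≤ ν → 1 ≤ J → T0 ⊆ range (G + 1) → (∀ u ∈ H, u ≤ G) → Disjoint T0 H →
      G < Y → G < primorial (wk k) → primorial (wk k) * (2 * J) + G ≤ X →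
      P.real {ω | c1 * J ≤ ((Gd k (Y) (s1) σ H T0 J fun p => a p ω).card : ℝ) ∧
          ((S2 k (Y) (s1) Z σ H T0 J fun p => a p ω).card : ℝ) <
            vB (Y) Z ^ (2 * ν) / 2 * (c1 * J * (1 - dB k (Y) Z) ^ (s1 + ν))} ≤
        2 ^ ν * ((1 / (c1 * J * (1 - dB k (Y) Z) ^ (s1 + ν)) +
          (Real.exp (((s1 + ν : ℕ) : ℝ) ^ 3 * Nat.log 2 X / (Y : ℝ)) - 1)) /
          (vB (Y) Z ^ (2 * ν) / 2 ^ (ν + 1)) ^ 2) := by
  classical
  have := prob h
  filter_upwards [ph2 h, wk_le, dB_small (1 / 2) (by norm_num), eventually_ge_atTop 1]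
    with k hph hwk hds hk1
  intro σ H T0 G J Y Z X s1 ν c1 hc1 hpar hkν hX hH hJ hT0 hHG hTH hGY hGq hqX
  set s := s1 + ν with hs
  have hkY : k ≤ Y := (Nat.le_self_pow (by norm_num) k).trans hpar.hYk
  have hwY : wk k ≤ Y := hwk.trans hkY
  have hd := hds Y Z s hpar
  have hd0 := dB_pos k Y Z
  have hv0 := vB_pos Y Z
  have h1d : 0 < 1 - dB k Y Z := by linarith
  have hJ0 : (0 : ℝ) < J := by exact_mod_cast hJ
  have hY0 : (0 : ℝ) < Y := by
    have : 0 < Y := by omega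
    exact_mod_cast this
  set ξ := Real.exp ((s : ℝ) ^ 3 * Nat.log 2 X / Y) - 1 with hξ
  have hξ0 : 0 ≤ ξ := by
    have : 1 ≤ Real.exp ((s : ℝ) ^ 3 * Nat.log 2 X / Y) := Real.one_le_exp (by positivity)
    linarith
  set β := vB Y Z ^ (2 * ν) with hβ
  have hβ0 : 0 < β := by positivity
  set m0 : ℝ := c1 * J * (1 - dB k Y Z) ^ s with hm0
  have hm00 : 0 < m0 := by positivity
  have hbd0 : 0 ≤ 2 ^ ν * ((1 / m0 + ξ) / (β / 2 ^ (ν + 1)) ^ 2) := by positivity
  have hun : PN Y ∪ PI Y Z = PN Z := (PN_union Y Z hpar.hYZ).symm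
  refine cond_one h (PN Y) (PI Y Z) (PN_PI_disj _ _)
    (fun b => c1 * J ≤ ((Gd k Y s1 σ H T0 J b).card : ℝ) ∧ ((S2 k Y s1 Z σ H T0 J b).card : ℝ) < β / 2 * m0)
    ?_ _ hbd0 ?_
  · intro b b' hb
    rw [hun] at hb
    rw [S2_congr k Y s1 Z σ H T0 J b b' hwY hpar.hYZ hb, Gd_congr k Y s1 σ H T0 J b b' hwY (fun p hp => hb p (by
      rw [mem_PN] at hp ⊢
      exact ⟨hp.1.trans hpar.hYZ, hp.2⟩))]
  · intro α
    have hY1 : ∀ ω, ∀ p ∈ PN Y, (if p ∈ PN Y then α p else a p ω) = α p := fun ω p hp => if_pos hp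
    have hGdα : ∀ ω, Gd k Y s1 σ H T0 J (fun i => if i ∈ PN Y then α i else a i ω) = Gd k Y s1 σ H T0 J α :=
      fun ω => Gd_congr k Y s1 σ H T0 J _ _ hwY (hY1 ω)
    set I := Gd k Y s1 σ H T0 J α with hI
    set n : ℕ → ℕ := fun j => ps k σ α j with hn
    set T : ℕ → Finset ℕ := fun j => TS1 k Y T0 (n j) α with hT
    have hS2α : ∀ ω, S2 k Y s1 Z σ H T0 J (fun i => if i ∈ PN Y then α i else a i ω) =
        I.filter fun j => C2 Y Z (T j) (H.image fun u => n j + u) fun p => a p ω := by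
      intro ω
      unfold S2
      rw [hGdα ω]
      refine filter_congr fun j _ => ?_
      rw [ps_congr k σ _ α j fun p hp => hY1 ω p (by
        rw [mem_PN] at hp ⊢
        exact ⟨hp.1.trans hwY, hp.2⟩), TS1_congr k Y T0 _ _ α fun p hp => hY1 ω p (by
        rw [mem_PI] at hp
        rw [mem_PN]
        exact ⟨hp.1.2, hp.2⟩)]
      exact C2_congr Y Z _ _ _ _ fun p hp => if_neg fun h3 => disjoint_left.1 (PN_PI_disj _ _) h3 hp
    by_cases hc : c1 * J ≤ (I.card : ℝ)
    · have hI1 : 1 ≤ I.card := by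
        have : (0 : ℝ) < I.card := lt_of_lt_of_le (by positivity) hc
        exact_mod_cast this
      have hTsub : ∀ j, T j ⊆ T0.image fun t => n j + t := fun j => by
        simp only [hT, TS1]
        exact filter_subset _ _
      have key := hph Y Z X s ν hpar hkν hX H I T n G hH hGY (fun j _ => by
        refine (hTsub j).trans fun x hx => ?_
        rw [mem_image] at hx
        obtain ⟨t, ht, rfl⟩ := hx
        have := mem_range.1 (hT0 ht)
        rw [mem_Icc]
        omega) hHG (fun j _ => by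
        refine disjoint_of_subset_left (hTsub j) ?_
        rw [disjoint_left]
        intro x hx hx'
        rw [mem_image] at hx hx'
        obtain ⟨t, ht, rfl⟩ := hx
        obtain ⟨u, hu, he⟩ := hx'
        have : u = t := by omega
        exact disjoint_left.1 hTH ht (this ▸ hu)) (fun i _ j _ hij => ps_disj k σ α G hGq i j hij)
        (fun j hj => ps_le k σ α J j G X (Gd_sub k Y s1 σ H T0 J α hj).1.2 hqX) (fun j hj => by
          have := (Gd_sub k Y s1 σ H T0 J α hj).2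
          have e : (T j).card = (TS1 k Y T0 (ps k σ α j) α).card := rfl
          omega) hI1
      refine le_trans (measureReal_mono ?_ (measure_ne_top _ _)) (key.trans ?_)
      · intro ω hω
        obtain ⟨-, hω2⟩ := hω
        rw [hS2α ω] at hω2
        show cnt I _ ω < _
        rw [cnt_eq]
        have e : (I.filter fun j => ω ∈ Kill a (T j) (PI Y Z) ∩ Surv a (PI Y Z) (H.image fun u => n j + u)) =
            I.filter fun j => C2 Y Z (T j) (H.image fun u => n j + u) fun p => a p ω :=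
          filter_congr fun j _ => Iff.rfl
        have e2 : (((I.filter fun j => ω ∈ Kill a (T j) (PI Y Z) ∩
            Surv a (PI Y Z) (H.image fun u => n j + u)).card : ℕ) : ℝ) < β / 2 * m0 := by
          rw [e]
          exact hω2
        refine lt_of_lt_of_le (lt_of_eq_of_lt ?_ e2) (show β / 2 * m0 ≤ β / 2 * (I.card * (1 - dB k Y Z) ^ s) by
          rw [hm0]
          gcongr)
        congr!
      · have h1 : 1 / ((I.card : ℝ) * (1 - dB k Y Z) ^ s) ≤ 1 / m0 := by
          apply one_div_le_one_div_of_le hm00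
          rw [hm0]
          gcongr
        gcongr
    · have hempty : {ω | c1 * J ≤ ((Gd k Y s1 σ H T0 J (fun i => if i ∈ PN Y then α i else a i ω)).card : ℝ) ∧
          ((S2 k Y s1 Z σ H T0 J (fun i => if i ∈ PN Y then α i else a i ω)).card : ℝ) < β / 2 * m0} = ∅ := by
        ext ω
        simp only [Set.mem_ofPred_eq, Set.mem_empty_iff_false, iff_false]
        rintro ⟨h3, -⟩
        rw [hGdα ω] at h3
        exact hc h3
      rw [hempty]
      simp only [measureReal_empty]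
      exact hbd0

end prob

end Pool.Agent.H531.RU
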