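import Pool.Agent.H531.RU.Ph

set_option autoImplicit false

/-!
# Exponential moments along the primes in their order
-/

open Finset MeasureTheory ProbabilityTheory Filter Topology

namespace Pool.Agent.H531.RU

open Pool.Agent.T2H31.HV Pool.Agent.H531.SI Pool.Agent.H531.MS
open Pool.Agent.H531.CP hiding pos Par low_all ratio_all low_exp
open Pool.Agent.H531.GP hiding Par low_all ratio_all low_exp vB_small dB_small
open Pool.Agent.T2H32.BF hiding PI pos

/-- the density of the positions that survive -/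
noncomputable def rho (ν w n : ℕ) : ℝ := ∏ p ∈ PI w n, (1 - (ν : ℝ) / p)

theorem PI_zero (w : ℕ) : PI w 0 = ∅ := by
  ext p
  rw [mem_PI]
  simp only [notMem_empty, iff_false]
  rintro ⟨⟨-, h⟩, hp⟩
  have := hp.pos
  omega

theorem PI_succ_of (w n : ℕ) (h : w < n + 1) (hp : (n + 1).Prime) : PI w (n + 1) = insert (n + 1) (PI w n) := by
  ext p
  rw [mem_insert, mem_PI, mem_PI]
  constructor
  · rintro ⟨⟨h1, h2⟩, h3⟩
    rcases Nat.lt_or_ge p (n + 1) with h4 | h4
    · exact Or.inr ⟨⟨h1, by omega⟩, h3⟩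
    · exact Or.inl (by omega)
  · rintro (rfl | ⟨⟨h1, h2⟩, h3⟩)
    · exact ⟨⟨h, le_rfl⟩, hp⟩
    · exact ⟨⟨h1, by omega⟩, h3⟩

theorem PI_succ_not (w n : ℕ) (h : ¬ (w < n + 1 ∧ (n + 1).Prime)) : PI w (n + 1) = PI w n := by
  ext p
  rw [mem_PI, mem_PI]
  constructor
  · rintro ⟨⟨h1, h2⟩, h3⟩
    rcases Nat.lt_or_ge p (n + 1) with h4 | h4
    · exact ⟨⟨h1, by omega⟩, h3⟩
    · have : p = n + 1 := by omega
      subst this
      exact absurd ⟨h1, h3⟩ h
  · rintro ⟨⟨h1, h2⟩, h3⟩
    exact ⟨⟨h1, by omega⟩, h3⟩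

theorem notMem_PI (w n : ℕ) : n + 1 ∉ PI w n := by
  rw [mem_PI]
  omega

theorem rho_succ (ν w n : ℕ) (h : w < n + 1) (hp : (n + 1).Prime) :
    rho ν w (n + 1) = (1 - (ν : ℝ) / ((n + 1 : ℕ) : ℝ)) * rho ν w n := by
  unfold rho
  rw [PI_succ_of w n h hp, prod_insert (notMem_PI w n)]

theorem rho_not (ν w n : ℕ) (h : ¬ (w < n + 1 ∧ (n + 1).Prime)) : rho ν w (n + 1) = rho ν w n := by
  unfold rho
  rw [PI_succ_not w n h]

theorem fac_half {ν w p : ℕ} (hw : 4 * ν ≤ w) (hp : w < p) : 0 ≤ (ν : ℝ) / p ∧ (ν : ℝ) / p ≤ 1 / 4 := by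
  have hp0 : (0 : ℝ) < p := by exact_mod_cast (by omega : 0 < p)
  refine ⟨by positivity, ?_⟩
  rw [div_le_div_iff₀ hp0 (by norm_num)]
  have : (4 * (ν : ℝ)) ≤ p := by exact_mod_cast (by omega : 4 * ν ≤ p)
  linarith

theorem rho_pos {ν w : ℕ} (hw : 4 * ν ≤ w) (n : ℕ) : 0 < rho ν w n := by
  unfold rho
  refine prod_pos fun p hp => ?_
  have := fac_half hw (mem_PI.1 hp).1.1
  linarith [this.2]

theorem rho_le_one {ν w : ℕ} (hw : 4 * ν ≤ w) (n : ℕ) : rho ν w n ≤ 1 := by
  unfold rho
  refine prod_le_one (fun p hp => ?_) fun p hp => ?_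
  · have := fac_half hw (mem_PI.1 hp).1.1
    linarith [this.2]
  · have := fac_half hw (mem_PI.1 hp).1.1
    linarith [this.1]

/-- **Exponential moments.** -/
theorem mgf_ord (H : Finset ℕ) (hH : 1 ≤ H.card) (c q : ℕ) (J : Finset ℕ) (w Y : ℕ) (K : ℕ → ℝ)
    (hK0 : ∀ p ∈ PI w Y, 0 < K p)
    (hK : ∀ p ∈ PI w Y, ∀ r, ((J.filter fun j => ∃ h ∈ H, (c + q * j + h) % p = r).card : ℝ) ≤ K p)
    (hw : 4 * H.card ≤ w) (Λ : ℝ) (hΛ : 0 ≤ Λ) (hΛK : ∀ p ∈ PI w Y, Λ * K p ≤ rho H.card w p) :
    ∀ n ≤ Y, ∀ l : ℝ, 0 ≤ l → l * rho H.card w n ≤ Λ →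
      Ev (PI w n) (fun b => Real.exp (-l * (ST H c q J (PI w n) b).card)) ≤
        Real.exp (-(J.card * (l * rho H.card w n) *
          (1 - ∑ p ∈ PI w n, 2 * Λ * H.card * Real.exp 1 * K p / (p * rho H.card w p)))) := by
  intro n
  induction n with
  | zero =>
    intro _ l _ _
    rw [PI_zero]
    simp only [Ev_empty, ST_empty, rho, PI_zero, prod_empty, sum_empty, mul_one, sub_zero]
    apply Real.exp_le_exp.2
    linarith
  | succ n ih =>
    intro hn l hl hlΛ
    by_cases hcase : w < n + 1 ∧ (n + 1).Prime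
    · obtain ⟨hwn, hpp⟩ := hcase
      set p := n + 1 with hp
      have hpY : p ∈ PI w Y := mem_PI.2 ⟨⟨hwn, hn⟩, hpp⟩
      have hp0 : (0 : ℝ) < p := by exact_mod_cast hpp.pos
      have hKp0 := hK0 p hpY
      have hν1 : (1 : ℝ) ≤ H.card := by exact_mod_cast hH
      set ν : ℝ := (H.card : ℝ) with hν
      obtain ⟨hf0, hf1⟩ := fac_half (p := p) hw hwn
      rw [← hν] at hf0 hf1
      set ρ := rho H.card w n with hρ
      have hρ0 : 0 < ρ := rho_pos hw n
      have hρp : rho H.card w p = (1 - ν / p) * ρ := by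
        rw [hp, rho_succ _ _ _ hwn hpp]
      have hρp0 : 0 < rho H.card w p := rho_pos hw p
      set ρ' := rho H.card w p with hρ'
      -- the constraint
      have hlK : l * K p ≤ 1 := by
        have h1 := hΛK p hpY
        have h2 : l * ρ' * K p ≤ Λ * K p := mul_le_mul_of_nonneg_right hlΛ hKp0.le
        have h3 : l * K p * ρ' ≤ 1 * ρ' := by linarith
        exact le_of_mul_le_mul_right h3 hρp0
      have hx : 0 ≤ l * K p := mul_nonneg hl hKp0.le
      set l1 := l - ν * (Real.exp (l * K p) - 1) / (p * K p) with hl1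
      have he2 := exp_bdd 1 (l * K p) hx hlK
      have he1 : l * K p ≤ Real.exp (l * K p) - 1 := by linarith [Real.add_one_le_exp (l * K p)]
      have hl1u : l1 ≤ l * (1 - ν / p) := by
        have h1 : ν * (l * K p) / (p * K p) ≤ ν * (Real.exp (l * K p) - 1) / (p * K p) := by
          apply div_le_div_of_nonneg_right _ (by positivity)
          exact mul_le_mul_of_nonneg_left he1 (by linarith)
        have e : ν * (l * K p) / (p * K p) = l * (ν / p) := by field_simp
        rw [e] at h1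
        rw [hl1]
        linarith
      have hl1l : l * (1 - ν / p) - l ^ 2 * (ν * Real.exp 1) * (K p / p) ≤ l1 := by
        rw [hl1]
        have h5 : ν * (Real.exp (l * K p) - 1) / (p * K p) ≤ ν * (l * K p + (l * K p) ^ 2 * Real.exp 1) / (p * K p) := by
          apply div_le_div_of_nonneg_right _ (by positivity)
          apply mul_le_mul_of_nonneg_left _ (by linarith)
          linarith
        have e : ν * (l * K p + (l * K p) ^ 2 * Real.exp 1) / (p * K p) =
            l * (ν / p) + l ^ 2 * (ν * Real.exp 1) * (K p / p) := by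
          field_simp
        rw [e] at h5
        linarith
      have he := Real.exp_pos (1 : ℝ)
      have he3 : Real.exp 1 < 3 := by
        have := Real.exp_one_lt_d9
        linarith
      have hl10 : 0 ≤ l1 := by
        -- `l K e ν / p ≤ e / 4 < 3 / 4`
        refine le_trans ?_ hl1l
        have e : l * (1 - ν / p) - l ^ 2 * (ν * Real.exp 1) * (K p / p) =
            l * (1 - ν / p - (l * K p) * Real.exp 1 * (ν / p)) := by
          field_simp
        rw [e]
        apply mul_nonneg hl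
        have h7 : (l * K p) * Real.exp 1 * (ν / p) ≤ 1 * 3 * (1 / 4) := by
          apply mul_le_mul _ hf1 hf0 (by norm_num)
          exact mul_le_mul hlK he3.le he.le (by norm_num)
        linarith
      set η : ℝ := 2 * Λ * ν * Real.exp 1 * K p / (p * ρ') with hη
      have hη0 : 0 ≤ η := by
        rw [hη]
        positivity
      -- the product with the density
      have hlow : l * ρ' * (1 - η) ≤ l1 * ρ := by
        have h1 : (l * (1 - ν / p) - l ^ 2 * (ν * Real.exp 1) * (K p / p)) * ρ ≤ l1 * ρ :=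
          mul_le_mul_of_nonneg_right hl1l hρ0.le
        refine le_trans ?_ h1
        have e : (l * (1 - ν / p) - l ^ 2 * (ν * Real.exp 1) * (K p / p)) * ρ =
            l * ρ' - l ^ 2 * (ν * Real.exp 1) * (K p / p) * ρ := by
          rw [hρp]
          ring
        rw [e]
        have h2 : l ^ 2 * (ν * Real.exp 1) * (K p / p) * ρ ≤ l * ρ' * η := by
          -- `l ρ ≤ 2 Λ`
          have h3 : l * ρ ≤ 2 * Λ := by
            have h4 : ρ ≤ 2 * ρ' := by
              rw [hρp]
              nlinarith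
            calc l * ρ ≤ l * (2 * ρ') := by gcongr
              _ = 2 * (l * ρ') := by ring
              _ ≤ 2 * Λ := by linarith
          have e2 : l * ρ' * η = l * (2 * Λ) * (ν * Real.exp 1) * (K p / p) := by
            rw [hη]
            field_simp
          rw [e2]
          have e3 : l ^ 2 * (ν * Real.exp 1) * (K p / p) * ρ = l * (l * ρ) * (ν * Real.exp 1) * (K p / p) := by ring
          rw [e3]
          gcongr
        linarith
      have hup : l1 * ρ ≤ l * ρ' := by
        calc l1 * ρ ≤ l * (1 - ν / p) * ρ := mul_le_mul_of_nonneg_right hl1u hρ0.le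
          _ = l * ρ' := by rw [hρp]; ring
      have hstep : ∀ b, (1 / (p : ℝ)) * ∑ r ∈ range p,
          Real.exp (-l * (ST H c q J (insert p (PI w n)) (Function.update b p r)).card) ≤
          Real.exp (-l1 * (ST H c q J (PI w n) b).card) := fun b =>
        ST_step H c q J (PI w n) p (notMem_PI w n) hpp (K p) hKp0 (hK p hpY) l hl b
      rw [PI_succ_of w n hwn hpp, Ev_insert (PI w n) p (notMem_PI w n)]
      refine (Ev_mono (PI w n) _ _ fun b _ => hstep b).trans ?_
      refine (ih (by omega) l1 hl10 (hup.trans hlΛ)).trans ?_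
      apply Real.exp_le_exp.2
      apply neg_le_neg
      rw [sum_insert (notMem_PI w n)]
      set S := ∑ p ∈ PI w n, 2 * Λ * ν * Real.exp 1 * K p / (p * rho H.card w p) with hS
      have hS0 : 0 ≤ S := sum_nonneg fun p' hp' => by
        have h1 : p' ∈ PI w Y := by
          rw [mem_PI] at hp' ⊢
          exact ⟨⟨hp'.1.1, by omega⟩, hp'.2⟩
        have h2 := hK0 p' h1
        have h3 : 0 < rho H.card w p' := rho_pos hw p'
        positivity
      have hJ0 : (0 : ℝ) ≤ J.card := Nat.cast_nonneg _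
      have hlρ : 0 ≤ l * ρ' := mul_nonneg hl hρp0.le
      have hmain : (l * ρ') * (1 - (η + S)) ≤ (l1 * ρ) * (1 - S) := by
        rcases le_or_gt S 1 with h1 | h1
        · calc (l * ρ') * (1 - (η + S)) ≤ (l * ρ') * ((1 - η) * (1 - S)) := by
                apply mul_le_mul_of_nonneg_left _ hlρ
                nlinarith
            _ = (l * ρ' * (1 - η)) * (1 - S) := by ring
            _ ≤ (l1 * ρ) * (1 - S) := mul_le_mul_of_nonneg_right hlow (by linarith)
        · calc (l * ρ') * (1 - (η + S)) ≤ (l * ρ') * (1 - S) := by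
                apply mul_le_mul_of_nonneg_left _ hlρ
                linarith
            _ ≤ (l1 * ρ) * (1 - S) := mul_le_mul_of_nonpos_right hup (by linarith)
      calc (J.card : ℝ) * (l * ρ') * (1 - (η + S)) = J.card * ((l * ρ') * (1 - (η + S))) := by ring
        _ ≤ J.card * ((l1 * ρ) * (1 - S)) := mul_le_mul_of_nonneg_left hmain hJ0
        _ = _ := by ring
    · rw [rho_not _ _ _ hcase, PI_succ_not w n hcase] at *
      exact ih (by omega) l hl hlΛ

section prob

variable {Ω : Type} [MeasurableSpace Ω] {P : Measure Ω} {a : ℕ → Ω → ℕ}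

/-- **The lower tail.** -/
theorem lower_ord (h : Model P a) (H : Finset ℕ) (hH : 1 ≤ H.card) (c q : ℕ) (J : Finset ℕ) (w Y : ℕ) (K : ℕ → ℝ)
    (hK0 : ∀ p ∈ PI w Y, 0 < K p)
    (hK : ∀ p ∈ PI w Y, ∀ r, ((J.filter fun j => ∃ h ∈ H, (c + q * j + h) % p = r).card : ℝ) ≤ K p)
    (hw : 4 * H.card ≤ w) (Λ : ℝ) (hΛ : 0 ≤ Λ) (hΛK : ∀ p ∈ PI w Y, Λ * K p ≤ rho H.card w p)
    (hS : ∑ p ∈ PI w Y, 2 * Λ * H.card * Real.exp 1 * K p / (p * rho H.card w p) ≤ 1 / 4) :
    P.real {ω | ((ST H c q J (PI w Y) fun p => a p ω).card : ℝ) ≤ J.card * rho H.card w Y / 2} ≤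
      Real.exp (-(J.card * Λ / 4)) := by
  have := prob h
  have hρ0 : 0 < rho H.card w Y := rho_pos hw Y
  set ρ := rho H.card w Y with hρ
  set l : ℝ := Λ / ρ with hl
  have hl0 : 0 ≤ l := by positivity
  have hlρ : l * ρ = Λ := by rw [hl]; field_simp
  have hL : ∀ p ∈ PI w Y, p.Prime := fun p hp => (mem_PI.1 hp).2
  have e1 := markov h (PI w Y) hL (fun b => Real.exp (-l * (ST H c q J (PI w Y) b).card)) (fun b => (Real.exp_pos _).le)
    (ST_dep H c q J (PI w Y) fun n => Real.exp (-l * n)) (Real.exp (-l * (J.card * ρ / 2))) (Real.exp_pos _)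
  have e2 := mgf_ord H hH c q J w Y K hK0 hK hw Λ hΛ hΛK Y le_rfl l hl0 (by rw [← hρ, hlρ])
  rw [← hρ, hlρ] at e2
  set S := ∑ p ∈ PI w Y, 2 * Λ * H.card * Real.exp 1 * K p / (p * rho H.card w p) with hSd
  have hJ0 : (0 : ℝ) ≤ J.card := Nat.cast_nonneg _
  have e3 : Ev (PI w Y) (fun b => Real.exp (-l * (ST H c q J (PI w Y) b).card)) / Real.exp (-l * (J.card * ρ / 2)) ≤
      Real.exp (-(J.card * Λ / 4)) := by
    rw [div_le_iff₀ (Real.exp_pos _), ← Real.exp_add]
    refine e2.trans (Real.exp_le_exp.2 ?_)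
    have e4 : -l * (J.card * ρ / 2) = -(J.card * Λ / 2) := by
      rw [← hlρ]
      ring
    rw [e4]
    have h5 : 0 ≤ (J.card : ℝ) * Λ := by positivity
    nlinarith
  refine le_trans (measureReal_mono ?_ (measure_ne_top _ _)) (e1.trans e3)
  intro ω hω
  simp only [Set.mem_ofPred_eq, Real.exp_le_exp] at hω ⊢
  have : l * ((ST H c q J (PI w Y) fun p => a p ω).card : ℝ) ≤ l * (J.card * ρ / 2) := mul_le_mul_of_nonneg_left hω hl0
  linarith

end prob

end Pool.Agent.H531.RU
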