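import Pool.Agent.H531.RU.Par

set_option autoImplicit false

/-!
# One pattern at one scale
-/

open Finset MeasureTheory ProbabilityTheory Filter Topology

namespace Pool.Agent.H531.RU

open Pool.Agent.T2H31.HV Pool.Agent.H531.SI Pool.Agent.H531.MS
open Pool.Agent.H531.CP hiding pos Par low_all ratio_all low_exp
open Pool.Agent.H531.GP hiding Par low_all ratio_all low_exp vB_small dB_small claim1 claim2 one_pattern
open Pool.Agent.T2H32.BF hiding PI pos

section prob

variable {Ω : Type} [MeasurableSpace Ω] {P : Measure Ω} {a : ℕ → Ω → ℕ}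

/-- **One pattern at one scale.** -/
theorem one_pattern (h : Model P a) (z : ℕ → ℕ) (hz : Monotone z)
    (hzV : Tendsto (fun n => V (z n) * Real.log n) atTop (𝓝 1)) (hzt : Tendsto z atTop atTop)
    (ε : ℝ) (hε : 0 < ε) (hε1 : ε ≤ 1) (A : ℝ) (hA0 : 0 < A) (hA : A < Real.exp 1) :
    ∀ᶠ k : ℕ in atTop, ∀ (H : Finset ℕ) (G : ℕ), 1 ≤ H.card → (H.card : ℝ) ≤ A * Real.log k → Adm H →
      (∀ u ∈ H, u ≤ G) → (G : ℝ) ≤ Real.exp ((2 - ε) * Real.log k) →
      P.real {ω | (∀ p, p.Prime → a p ω < p) ∧ ¬ PatAt z (fun p => a p ω) H G k} ≤ Real.exp (-(10 * Real.log k ^ 2)) := by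
  classical
  have := prob h
  obtain ⟨κ, hκ0, hcl1⟩ := claim1 h 60 (by norm_num) A hA0 hA
  have hA3 : A < 3 := by
    have := Real.exp_one_lt_d9
    linarith
  filter_upwards [hcl1, claim2 h, par_Y z hzV hzt 60 (by norm_num) A hA0 ε hε hε1, ratio_last z hzV,
    mass' z hzV hzt 60 (by norm_num) A hA0 ε hε hε1, (wk_le.and (q_large.and (q_small (1 / 16) (by norm_num)))),
    (Yk_bounds 60 (by norm_num)).and (dB_small (1 / 2) (by norm_num)),
    (expL 2 48 κ (by norm_num) hκ0).and (logpow 3 (1 / 16) (by norm_num)),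
    (E_top.eventually_ge_atTop 24).and (logpow 2 (1 / 160) (by norm_num)),
    hlog.eventually_ge_atTop (max 20 (4 / ε)), (tendsto_natCast_atTop_atTop (R := ℝ)).eventually_ge_atTop 100,
    (expL 1 1 1 one_pos one_pos)]
    with k hcl1 hcl2 hparr hrat hmass hwq hYd hbg hEl hLb hk100 hLe
  obtain ⟨hwk, hql, hq4⟩ := hwq
  obtain ⟨hYb, hds⟩ := hYd
  obtain ⟨⟨hYk, hYl⟩, hY60⟩ := hYb
  obtain ⟨hb1, hl3⟩ := hbg
  obtain ⟨hE24, hl2⟩ := hEl
  intro H G hH1 hHA hadm hHG hG
  set L := Real.log k with hL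
  have hL20 : 20 ≤ L := (le_max_left _ _).trans hLb
  have hLε : 4 / ε ≤ L := (le_max_right _ _).trans hLb
  rw [div_le_iff₀ hε] at hLε
  have hL0 : 0 < L := by linarith
  have hk0 : (0 : ℝ) < k := by linarith
  have ek : Real.exp L = k := Real.exp_log hk0
  set ν := ⌊A * L⌋₊ with hν
  have hνA : (ν : ℝ) ≤ A * L := Nat.floor_le (by positivity)
  have hHν : H.card ≤ ν := Nat.le_floor hHA
  have hν3 : (ν : ℝ) ≤ 3 * L := hνA.trans (mul_le_mul_of_nonneg_right hA3.le hL0.le)
  have hLL : 20 * L ≤ L ^ 2 := by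
    rw [sq]
    exact mul_le_mul_of_nonneg_right hL20 hL0.le
  have hν0 : (0 : ℝ) ≤ ν := Nat.cast_nonneg ν
  have hpar := hparr ν hνA
  have hmass' := hmass ν hνA
  choose σ0 hσ0 using hadm
  set σ : ℕ → ℕ := fun p => if hp : p.Prime then σ0 p hp else 0 with hσ
  have hσ1 : ∀ p ≤ wk k, p.Prime → ∀ h ∈ H, ¬ p ∣ h + σ p := by
    intro p _ hpp u hu
    simp only [hσ, hpp, dite_true]
    exact hσ0 p hpp u hu
  set Y := Yk 60 k with hY
  set Z := z (E k / 8) with hZ
  set Z' := z (E k) with hZ'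
  set q := primorial (wk k) with hq
  set J := E k / (4 * q) with hJ
  set s1 := sE ε k with hs1
  set T0 := T00 k σ H G with hT0d
  have hk1 : 1 ≤ k := by
    have : (1 : ℝ) ≤ k := by linarith
    exact_mod_cast this
  have hk100N : 100 ≤ k := by exact_mod_cast hk100
  have hqpos : 0 < q := primorial_pos _
  -- the diameter
  have hG2 : (G : ℝ) ≤ k ^ 2 := by
    refine hG.trans ?_
    have e2 : (k : ℝ) ^ 2 = Real.exp (2 * L) := by
      rw [show (2 : ℝ) * L = L + L by ring, Real.exp_add, ek, sq]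
    rw [e2]
    apply Real.exp_le_exp.2
    exact mul_le_mul_of_nonneg_right (by linarith) hL0.le
  have hG2N : G ≤ k ^ 2 := by exact_mod_cast hG2
  have hGq : G < q := by omega
  have hkY : k ≤ Y := (Nat.le_self_pow (by norm_num) k).trans hYk
  have hwY : wk k ≤ Y := hwk.trans hkY
  have hGY : G < Y := by
    have h1 : k ^ 2 < k ^ 20 := Nat.pow_lt_pow_right (by omega) (by norm_num)
    omega
  have hYZ : Y ≤ Z := hpar.hYZ
  have hZZ : Z ≤ Z' := hz (Nat.div_le_self _ _)
  have hZ1 : 1 ≤ Z := by omega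
  have hY1 : 1 ≤ Y := by omega
  have hY0 : (0 : ℝ) < Y := by exact_mod_cast hY1
  have hYe : Real.exp (60 * L ^ 2) ≤ Y := by
    rw [← Real.exp_log hY0]
    apply Real.exp_le_exp.2
    have := hY60
    push_cast at this
    exact this
  have hYe2 : (Y : ℝ) ≤ Real.exp (1 / 16 * k) := by
    rw [← Real.exp_log hY0]
    apply Real.exp_le_exp.2
    linarith
  have hkν : 2 * ν + 1 ≤ k := by
    have h1 : 2 * (ν : ℝ) + 1 ≤ k := by
      have h2 : L ^ 2 ≤ 1 / 160 * k := hl2
      linarith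
    exact_mod_cast h1
  -- the range of the positions
  have hqE : (q : ℝ) * Real.exp (1 / 2 * k) ≤ Real.exp (9 / 16 * k) := by
    calc (q : ℝ) * Real.exp (1 / 2 * k) ≤ Real.exp (1 / 16 * k) * Real.exp (1 / 2 * k) := by gcongr
      _ = Real.exp (9 / 16 * k) := by
          rw [← Real.exp_add]
          congr 1
          ring
  have hEk := E_lower k
  have h8e : (8 : ℝ) ≤ Real.exp (1 / 8 * k) := by
    have := Real.add_one_le_exp (1 / 8 * (k : ℝ))
    linarith
  have hqEN : q * 8 ≤ E k := by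
    have h1 : (q : ℝ) * 8 ≤ E k := by
      calc (q : ℝ) * 8 ≤ Real.exp (1 / 16 * k) * Real.exp (1 / 8 * k) := by gcongr
        _ = Real.exp (3 / 16 * k) := by
            rw [← Real.exp_add]
            congr 1
            ring
        _ ≤ Real.exp k := Real.exp_le_exp.2 (by linarith)
        _ ≤ E k := hEk
    exact_mod_cast h1
  have hJq : 4 * q * J ≤ E k := Nat.mul_div_le _ _
  have hJq2 : E k < 4 * q * J + 4 * q := by
    have := Nat.lt_mul_div_succ (E k) (show 0 < 4 * q by omega)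
    rw [mul_add, mul_one] at this
    exact this
  have hJ8 : E k / 8 ≤ q * J := by
    have e : 4 * q * J = 4 * (q * J) := by ring
    rw [e] at hJq2
    omega
  have hJG : q * (2 * J) + G ≤ E k := by
    have e : 4 * q * J = 2 * (q * (2 * J)) := by ring
    rw [e] at hJq
    omega
  have hYJ : Y ≤ J := by
    rw [hJ, Nat.le_div_iff_mul_le (by omega)]
    have h1 : ((Y * (4 * q) : ℕ) : ℝ) ≤ E k := by
      push_cast
      calc (Y : ℝ) * (4 * q) ≤ Real.exp (1 / 16 * k) * (Real.exp (1 / 8 * k) * Real.exp (1 / 16 * k)) := by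
            apply mul_le_mul hYe2 _ (by positivity) (Real.exp_pos _).le
            apply mul_le_mul _ hq4 (Nat.cast_nonneg _) (Real.exp_pos _).le
            linarith
        _ = Real.exp (1 / 4 * k) := by
            rw [← Real.exp_add, ← Real.exp_add]
            congr 1
            ring
        _ ≤ Real.exp k := Real.exp_le_exp.2 (by linarith)
        _ ≤ E k := hEk
    exact_mod_cast h1
  have hJ1 : 1 ≤ J := by omega
  -- the set
  have hT0sub : T0 ⊆ range (G + 1) := by
    rw [hT0d]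
    unfold T00
    exact sdiff_subset.trans (filter_subset _ _)
  have hT0H : Disjoint T0 H := by
    rw [hT0d]
    unfold T00
    exact sdiff_disjoint
  have hT0c : T0.card ≤ s1 := by
    have h1 := card_le_card hT0sub
    rw [card_range] at h1
    refine h1.trans ?_
    rw [hs1]
    unfold sE
    apply Nat.le_floor
    push_cast
    have h2 : 1 + Real.exp ((2 - ε) * L) ≤ Real.exp ((2 - ε / 2) * L) := by
      have e : Real.exp ((2 - ε / 2) * L) = Real.exp ((2 - ε) * L) * Real.exp (ε / 2 * L) := by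
        rw [← Real.exp_add]
        congr 1
        ring
      rw [e]
      have h3 : 2 ≤ Real.exp (ε / 2 * L) := by
        have h5 := Real.add_one_le_exp (ε / 2 * L)
        have h4 : 2 ≤ ε / 2 * L := by linarith
        linarith
      have h4 : 1 ≤ Real.exp ((2 - ε) * L) := Real.one_le_exp (mul_nonneg (by linarith) hL0.le)
      have h5 := mul_le_mul_of_nonneg_left h3 (Real.exp_pos ((2 - ε) * L)).le
      linarith
    linarith
  -- the three bounds
  have b1 := hcl1 σ H T0 s1 J hH1 hHA hT0c hYJ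
  set c1 : ℝ := 1 / (2 * (Y : ℝ)) with hc1
  have hc10 : 0 < c1 := by positivity
  have b2 := hcl2 σ H T0 G J Y Z (E k) s1 ν c1 hc10 hpar hkν (log2_E k (by omega)) hHν hJ1 hT0sub hHG hT0H hGY hGq hJG
  set β := vB Y Z ^ (2 * ν) with hβ
  set m0 : ℝ := c1 * J * (1 - dB k Y Z) ^ (s1 + ν) with hm0
  have hm0l : Real.exp (1 / 4 * k) ≤ m0 := hmass'
  have hm00 : 0 < m0 := (Real.exp_pos _).trans_le hm0l
  have hvB0 := vB_pos Y Z
  have hβ0 : 0 < β := by positivity
  have b3 := claim3 h ν k Y s1 σ H T0 G J Z Z' (E k) hwY hYZ hZ1 hZZ (by omega) hHν hHG (lt_of_lt_of_le hGY hYZ) hGq hJG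
    (β / 2 * m0) (by positivity)
  -- the union
  have hsub : {ω | (∀ p, p.Prime → a p ω < p) ∧ ¬ PatAt z (fun p => a p ω) H G k} ⊆
      ({ω | ((Gd k Y s1 σ H T0 J fun p => a p ω).card : ℝ) < c1 * J} ∪
      {ω | c1 * J ≤ ((Gd k Y s1 σ H T0 J fun p => a p ω).card : ℝ) ∧
          ((S2 k Y s1 Z σ H T0 J fun p => a p ω).card : ℝ) < β / 2 * m0}) ∪
      {ω | β / 2 * m0 ≤ ((S2 k Y s1 Z σ H T0 J fun p => a p ω).card : ℝ) ∧
        ∀ j ∈ S2 k Y s1 Z σ H T0 J fun p => a p ω,
          ¬ C3 Z Z' (H.image fun u => ps k σ (fun p => a p ω) j + u) fun p => a p ω} := by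
    rintro ω ⟨hb, hω⟩
    by_contra hcon
    simp only [Set.mem_union, Set.mem_ofPred_eq, not_or, not_and, not_lt, not_forall, not_not] at hcon
    obtain ⟨⟨h1, h2⟩, h3⟩ := hcon
    obtain ⟨j, hj, hC⟩ := h3 (h2 h1)
    exact hω (found hz k Y s1 J G σ H _ hwY hYZ hσ1 hb (by omega) hJ8 hJG j hj hC)
  refine (measureReal_mono hsub (measure_ne_top _ _)).trans ((measureReal_union_le _ _).trans
    (add_le_add_left (measureReal_union_le _ _) _) |>.trans ?_)
  -- the numerical bounds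
  have hkL : 40 * L ^ 2 ≤ 1 / 4 * k := by
    have : L ^ 2 ≤ 1 / 160 * (k : ℝ) := hl2
    linarith
  have n1 : Real.exp (-(Real.exp (κ * L) / 4)) ≤ Real.exp (-(12 * L ^ 2)) := by
    apply Real.exp_le_exp.2
    linarith
  have hlog2 : ((Nat.log 2 (E k) : ℕ) : ℝ) ≤ 3 * k := by exact_mod_cast log2_E k (by omega)
  have h2e : (2 : ℝ) ≤ Real.exp 1 := by
    have := Real.add_one_le_exp (1 : ℝ)
    linarith
  have h2ν : ∀ m : ℕ, (2 : ℝ) ^ m ≤ Real.exp m := by
    intro m
    calc (2 : ℝ) ^ m ≤ Real.exp 1 ^ m := by gcongr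
      _ = Real.exp m := by rw [← Real.exp_nat_mul, mul_one]
  -- a bound for `β`
  have hvl : Real.exp (-(L + 1)) ≤ vB Y Z := by
    have h1 : 1 / (2 * (k : ℝ)) ≤ vB Y Z := by
      refine hpar.hV1.trans ?_
      unfold vB
      have hVY := V_pos Y
      have hVY1 := V_le_one Y
      have hVZ := V_pos Z
      rw [le_div_iff₀ hVY]
      exact mul_le_of_le_one_right hVZ.le hVY1
    refine le_trans ?_ h1
    rw [Real.exp_neg, Real.exp_add, ek, ← one_div]
    apply one_div_le_one_div_of_le (by positivity)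
    rw [mul_comm (2 : ℝ)]
    exact mul_le_mul_of_nonneg_left h2e hk0.le
  have hβl : Real.exp (-(2 * ν * (L + 1))) ≤ β := by
    rw [hβ]
    calc Real.exp (-(2 * ν * (L + 1))) = Real.exp (-(L + 1)) ^ (2 * ν) := by
          rw [← Real.exp_nat_mul]
          congr 1
          push_cast
          ring
      _ ≤ _ := pow_le_pow_left₀ (Real.exp_pos _).le hvl _
  have hβ2 : Real.exp (-(2 * ν * (L + 1) + (ν + 1))) ≤ β / 2 ^ (ν + 1) := by
    rw [le_div_iff₀ (by positivity)]
    have h1 := h2ν (ν + 1)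
    push_cast at h1
    calc Real.exp (-(2 * ν * (L + 1) + (ν + 1))) * 2 ^ (ν + 1) ≤
          Real.exp (-(2 * ν * (L + 1) + (ν + 1))) * Real.exp (ν + 1) := by gcongr
      _ = Real.exp (-(2 * ν * (L + 1))) := by
          rw [← Real.exp_add]
          congr 1
          ring
      _ ≤ β := hβl
  have hνL : (ν : ℝ) * L ≤ 3 * L ^ 2 := by
    have h1 := mul_le_mul_of_nonneg_right hν3 hL0.le
    have e : 3 * L * L = 3 * L ^ 2 := by ring
    linarith
  -- small quantities
  have hx1 : ∀ t : ℝ, 0 ≤ t → t ≤ 324 * k ^ 7 → t / Y ≤ Real.exp (-(50 * L ^ 2)) := by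
    intro t ht0 ht
    have hY0' : Real.exp (60 * L ^ 2) ≤ Y := hYe
    calc t / Y ≤ (324 * k ^ 7) / Real.exp (60 * L ^ 2) := by gcongr
      _ ≤ (Real.exp 9 * Real.exp (7 * L)) / Real.exp (60 * L ^ 2) := by
          have h1 : (324 : ℝ) ≤ Real.exp 9 := by
            have h3 := h2ν 9
            push_cast at h3
            norm_num at h3
            linarith
          have h2 : (k : ℝ) ^ 7 = Real.exp (7 * L) := by
            rw [← ek, ← Real.exp_nat_mul]
            norm_num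
          rw [h2]
          gcongr
      _ = Real.exp (9 + 7 * L - 60 * L ^ 2) := by
          rw [← Real.exp_add, ← Real.exp_sub]
      _ ≤ Real.exp (-(50 * L ^ 2)) := by
          apply Real.exp_le_exp.2
          linarith
  have h50 : Real.exp (-(50 * L ^ 2)) ≤ 1 := by
    rw [← Real.exp_zero]
    apply Real.exp_le_exp.2
    have : 0 ≤ L ^ 2 := sq_nonneg L
    linarith
  have n2 : 2 ^ ν * ((1 / m0 + (Real.exp (((s1 + ν : ℕ) : ℝ) ^ 3 * Nat.log 2 (E k) / (Y : ℝ)) - 1)) /
      (β / 2 ^ (ν + 1)) ^ 2) ≤ Real.exp (-(12 * L ^ 2)) := by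
    set x : ℝ := ((s1 + ν : ℕ) : ℝ) ^ 3 * Nat.log 2 (E k) / (Y : ℝ) with hx
    have hx0 : 0 ≤ x := by positivity
    have hxu : x ≤ Real.exp (-(50 * L ^ 2)) := by
      refine hx1 _ (by positivity) ?_
      have h1 : ((s1 + ν : ℕ) : ℝ) ≤ (k : ℝ) ^ 2 := by exact_mod_cast hpar.hs3
      calc ((s1 + ν : ℕ) : ℝ) ^ 3 * ((Nat.log 2 (E k) : ℕ) : ℝ) ≤ ((k : ℝ) ^ 2) ^ 3 * (3 * (k : ℝ)) := by gcongr
        _ = 3 * (k : ℝ) ^ 7 := by ring
        _ ≤ 324 * (k : ℝ) ^ 7 := by gcongr; norm_num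
    have hξ := exp_sub_one_le x hx0 (hxu.trans h50)
    have hm1 : 1 / m0 ≤ Real.exp (-(40 * L ^ 2)) := by
      have h1 := one_div_le_one_div_of_le (Real.exp_pos _) hm0l
      refine h1.trans ?_
      rw [one_div, ← Real.exp_neg]
      apply Real.exp_le_exp.2
      linarith
    have h54 : Real.exp (-(50 * L ^ 2)) ≤ Real.exp (-(40 * L ^ 2)) := by
      apply Real.exp_le_exp.2
      have : 0 ≤ L ^ 2 := sq_nonneg L
      linarith
    have hnum : 1 / m0 + (Real.exp x - 1) ≤ Real.exp 2 * Real.exp (-(40 * L ^ 2)) := by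
      have h3 : 3 ≤ Real.exp 2 := by
        have := Real.add_one_le_exp (2 : ℝ)
        linarith
      have h4 := Real.exp_pos (-(40 * L ^ 2))
      have h5 := mul_le_mul_of_nonneg_right h3 h4.le
      linarith
    have hnum0 : 0 ≤ 1 / m0 + (Real.exp x - 1) := by
      have : 1 ≤ Real.exp x := Real.one_le_exp hx0
      have : 0 < 1 / m0 := by positivity
      linarith
    have hden : Real.exp (-(2 * (2 * ν * (L + 1) + (ν + 1)))) ≤ (β / 2 ^ (ν + 1)) ^ 2 := by
      calc Real.exp (-(2 * (2 * ν * (L + 1) + (ν + 1)))) = Real.exp (-(2 * ν * (L + 1) + (ν + 1))) ^ 2 := by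
            rw [← Real.exp_nat_mul]
            congr 1
            push_cast
            ring
        _ ≤ _ := pow_le_pow_left₀ (Real.exp_pos _).le hβ2 _
    calc 2 ^ ν * ((1 / m0 + (Real.exp x - 1)) / (β / 2 ^ (ν + 1)) ^ 2)
        ≤ Real.exp ν * ((Real.exp 2 * Real.exp (-(40 * L ^ 2))) / Real.exp (-(2 * (2 * ν * (L + 1) + (ν + 1))))) := by
          apply mul_le_mul (h2ν ν) _ (by positivity) (Real.exp_pos _).le
          exact div_le_div₀ (by positivity) hnum (Real.exp_pos _) hden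
      _ = Real.exp (ν + (2 + -(40 * L ^ 2) - -(2 * (2 * ν * (L + 1) + (ν + 1))))) := by
          rw [← Real.exp_add 2, ← Real.exp_sub, ← Real.exp_add]
      _ ≤ Real.exp (-(12 * L ^ 2)) := by
          apply Real.exp_le_exp.2
          have e : (ν : ℝ) + (2 + -(40 * L ^ 2) - -(2 * (2 * ν * (L + 1) + (ν + 1)))) =
            4 * (ν * L) + 7 * ν + 4 - 40 * L ^ 2 := by ring
          rw [e]
          linarith
  have hVZ := V_pos Z
  have hVZ' := V_pos Z'
  have n3 : 1 / (β / 2 * m0 * (V Z' / V Z) ^ (2 * ν)) ≤ Real.exp (-(12 * L ^ 2)) := by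
    have h14 : Real.exp (-2) ≤ V Z' / V Z := by
      refine le_trans ?_ hrat
      rw [Real.exp_neg, ← one_div]
      apply one_div_le_one_div_of_le (by norm_num)
      have h1 := h2ν 2
      push_cast at h1
      norm_num at h1
      exact h1
    have h1 : Real.exp (-(2 * ν * (L + 1)) - 1 + 1 / 4 * k - 4 * ν) ≤ β / 2 * m0 * (V Z' / V Z) ^ (2 * ν) := by
      have h3 : Real.exp (-(2 * ν * (L + 1)) - 1) ≤ β / 2 := by
        rw [Real.exp_sub]
        exact div_le_div₀ hβ0.le hβl (by norm_num) h2e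
      have h4 : Real.exp (-(4 * ν)) ≤ (V Z' / V Z) ^ (2 * ν) := by
        calc Real.exp (-(4 * ν)) = Real.exp (-2) ^ (2 * ν) := by
              rw [← Real.exp_nat_mul]
              congr 1
              push_cast
              ring
          _ ≤ _ := pow_le_pow_left₀ (Real.exp_pos _).le h14 _
      calc Real.exp (-(2 * ν * (L + 1)) - 1 + 1 / 4 * k - 4 * ν) =
            Real.exp (-(2 * ν * (L + 1)) - 1) * Real.exp (1 / 4 * k) * Real.exp (-(4 * ν)) := by
            rw [← Real.exp_add, ← Real.exp_add]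
            congr 1
        _ ≤ _ := by gcongr
    refine (one_div_le_one_div_of_le (Real.exp_pos _) h1).trans ?_
    rw [one_div, ← Real.exp_neg]
    apply Real.exp_le_exp.2
    have e : -(-(2 * ν * (L + 1)) - 1 + 1 / 4 * (k : ℝ) - 4 * ν) = 2 * (ν * L) + 6 * ν + 1 - 1 / 4 * k := by ring
    rw [e]
    linarith
  have n4 : Real.exp (2 * (ν : ℝ) ^ 3 * Nat.log 2 (E k) / Z) - 1 ≤ Real.exp (-(12 * L ^ 2)) := by
    set x : ℝ := 2 * (ν : ℝ) ^ 3 * Nat.log 2 (E k) / Z with hx
    have hZR : (Y : ℝ) ≤ Z := by exact_mod_cast hYZ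
    have hZ0 : (0 : ℝ) < Z := by exact_mod_cast hZ1
    have hx0 : 0 ≤ x := by positivity
    have hLk : L ≤ k := by
      have := hLe
      rw [pow_one, one_mul] at this
      rw [ek] at this
      exact this
    have hxu : x ≤ Real.exp (-(50 * L ^ 2)) := by
      have h0 : x ≤ 2 * (ν : ℝ) ^ 3 * Nat.log 2 (E k) / Y := by
        rw [hx]
        gcongr
      refine h0.trans (hx1 _ (by positivity) ?_)
      calc 2 * (ν : ℝ) ^ 3 * ((Nat.log 2 (E k) : ℕ) : ℝ) ≤ 2 * (3 * (k : ℝ)) ^ 3 * (3 * k) := by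
            gcongr
            linarith
        _ = 162 * (k : ℝ) ^ 4 := by ring
        _ ≤ 324 * (k : ℝ) ^ 7 := by
            have h1 : (k : ℝ) ^ 4 ≤ (k : ℝ) ^ 7 := pow_le_pow_right₀ (by linarith) (by norm_num)
            have : 0 ≤ (k : ℝ) ^ 7 := by positivity
            linarith
    have h1 := exp_sub_one_le x hx0 (hxu.trans h50)
    have h2 : 2 * Real.exp (-(50 * L ^ 2)) ≤ Real.exp (-(12 * L ^ 2)) := by
      calc 2 * Real.exp (-(50 * L ^ 2)) ≤ Real.exp 1 * Real.exp (-(50 * L ^ 2)) := by gcongr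
        _ = Real.exp (1 + -(50 * L ^ 2)) := by rw [← Real.exp_add]
        _ ≤ _ := by
            apply Real.exp_le_exp.2
            linarith
    linarith
  have h5 := b1.trans n1
  have h6 := b2.trans n2
  have h7 := b3.trans (add_le_add n3 n4)
  refine (add_le_add (add_le_add h5 h6) h7).trans ?_
  have e : Real.exp (-(12 * L ^ 2)) + Real.exp (-(12 * L ^ 2)) + (Real.exp (-(12 * L ^ 2)) + Real.exp (-(12 * L ^ 2))) =
      4 * Real.exp (-(12 * L ^ 2)) := by ring
  rw [e]
  have h4e : (4 : ℝ) ≤ Real.exp 2 := by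
    have h1 := h2ν 2
    push_cast at h1
    norm_num at h1
    exact h1
  calc 4 * Real.exp (-(12 * L ^ 2)) ≤ Real.exp 2 * Real.exp (-(12 * L ^ 2)) := by gcongr
    _ = Real.exp (2 + -(12 * L ^ 2)) := by rw [← Real.exp_add]
    _ ≤ _ := by
        apply Real.exp_le_exp.2
        linarith

end prob

end Pool.Agent.H531.RU
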