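import Pool.Agent.H531.RU.Cl

set_option autoImplicit false

/-!
# The parameters
-/

open Finset MeasureTheory ProbabilityTheory Filter Topology

namespace Pool.Agent.H531.RU

open Pool.Agent.T2H31.HV Pool.Agent.H531.SI Pool.Agent.H531.MS
open Pool.Agent.H531.CP hiding pos Par low_all ratio_all low_exp
open Pool.Agent.H531.GP hiding Par low_all ratio_all low_exp vB_small dB_small
open Pool.Agent.T2H32.BF hiding PI pos

/-- powers of the logarithm against powers -/
theorem expL (m : ℕ) (C c : ℝ) (hC : 0 < C) (hc : 0 < c) : ∀ᶠ k : ℕ in atTop,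
    C * Real.log k ^ m ≤ Real.exp (c * Real.log k) := by
  have h1 := (isLittleO_pow_exp_pos_mul_atTop m hc).bound (show 0 < 1 / C by positivity)
  have h2 := hlog.eventually h1
  filter_upwards [h2, hlog.eventually_ge_atTop 0] with k hk h0
  rw [Real.norm_eq_abs, Real.norm_eq_abs, abs_of_pos (Real.exp_pos _), abs_of_nonneg (by positivity)] at hk
  have h3 := mul_le_mul_of_nonneg_left hk hC.le
  have e : C * (1 / C * Real.exp (c * Real.log k)) = Real.exp (c * Real.log k) := by field_simp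
  linarith

/-- the bound for the size of the block -/
noncomputable def sE (ε : ℝ) (k : ℕ) : ℕ := ⌊Real.exp ((2 - ε / 2) * Real.log k)⌋₊

section limits

variable (z : ℕ → ℕ) (hzV : Tendsto (fun n => V (z n) * Real.log n) atTop (𝓝 1)) (hzt : Tendsto z atTop atTop)

include hzV

theorem Yk_le_z (M : ℕ) (hM : 20 ≤ M) : ∀ᶠ k : ℕ in atTop, Yk M k ≤ z (E k / 8) := by
  obtain ⟨n0, hn0⟩ := eventually_atTop.1 V_ge_log
  filter_upwards [V_scl z hzV Scl_eighth 1 one_pos, eventually_ge_atTop (n0 + 2), logpow 3 (1 / 8) (by norm_num),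
    Yk_bounds M hM] with k h1 h2 h3 h4
  by_contra hcon
  push Not at hcon
  obtain ⟨⟨hYk, hYl⟩, -⟩ := h4
  have hkY : k ≤ Yk M k := (Nat.le_self_pow (by norm_num) k).trans hYk
  have hk : (2 : ℝ) ≤ k := by exact_mod_cast (by omega : 2 ≤ k)
  have h5 : V (Yk M k) ≤ V (z (E k / 8)) := V_anti hcon.le
  have h6 := hn0 (Yk M k) (by omega)
  have hlY : 0 < Real.log (Yk M k) := by
    apply Real.log_pos
    have : (2 : ℝ) ≤ Yk M k := hk.trans (by exact_mod_cast hkY)
    linarith
  have h7 : 1 / (2 * Real.log k ^ 3) ≤ (1 + 1) / (k : ℝ) := by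
    refine le_trans ?_ ((h6.trans h5).trans h1.2)
    apply one_div_le_one_div_of_le (by positivity)
    linarith
  have hl3 : 0 < Real.log k ^ 3 := lt_of_lt_of_le hlY hYl
  rw [div_le_div_iff₀ (by positivity) (by linarith)] at h7
  linarith

include hzt

theorem par_Y (M : ℕ) (hM : 20 ≤ M) (A : ℝ) (hA0 : 0 < A) (ε : ℝ) (hε : 0 < ε) (hε1 : ε ≤ 1) :
    ∀ᶠ k : ℕ in atTop, ∀ ν : ℕ, (ν : ℝ) ≤ A * Real.log k → PY k (Yk M k) (z (E k / 8)) (sE ε k + ν) := by
  obtain ⟨n0, hn0⟩ := eventually_atTop.1 V_ge_log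
  filter_upwards [Yk_le_z z hzV M hM, log_z_le z hzV Scl_eighth hzt, V_scl z hzV Scl_eighth (1 / 2) (by norm_num),
    Yk_bounds M hM, eventually_ge_atTop (n0 + 2), expL 3 4 (ε / 4) (by norm_num) (by positivity),
    expL 1 (400 + 1) (1 / 2) (by norm_num) (by norm_num),
    expL 1 (2 * (A + 1)) 1 (by positivity) one_pos, hlog.eventually_ge_atTop (max 1 (8 / ε))] with k h1 h2 h3 h4 h5 h6 h7 h8 h9
  intro ν hν
  obtain ⟨⟨hYk, hYl⟩, -⟩ := h4
  have hl1 : 1 ≤ Real.log k := (le_max_left _ _).trans h9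
  have hlε : 8 / ε ≤ Real.log k := (le_max_right _ _).trans h9
  rw [div_le_iff₀ hε] at hlε
  have hk2 : (2 : ℝ) ≤ k := by exact_mod_cast (by omega : 2 ≤ k)
  have hk0 : (0 : ℝ) < k := by linarith
  have ek : Real.exp (Real.log k) = k := Real.exp_log hk0
  have ek2 : Real.exp (2 * Real.log k) = (k : ℝ) ^ 2 := by
    rw [show (2 : ℝ) * Real.log k = Real.log k + Real.log k by ring, Real.exp_add, ek, sq]
  set Y := Yk M k with hY
  have hkY : k ≤ Y := (Nat.le_self_pow (by norm_num) k).trans hYk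
  have hVY := V_pos Y
  have hlY : 0 < Real.log Y := by
    apply Real.log_pos
    have : (2 : ℝ) ≤ Y := hk2.trans (by exact_mod_cast hkY)
    linarith
  have hVY1 : 1 / (2 * Real.log k ^ 3) ≤ V Y := by
    refine le_trans ?_ (hn0 Y (by omega))
    apply one_div_le_one_div_of_le (by positivity)
    linarith
  set e1 : ℝ := Real.exp ((2 - ε / 2) * Real.log k) with he1
  have hsu : ((sE ε k : ℕ) : ℝ) ≤ e1 := Nat.floor_le (Real.exp_pos _).le
  have hsl : e1 < ((sE ε k : ℕ) : ℝ) + 1 := Nat.lt_floor_add_one _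
  have hν0 : (0 : ℝ) ≤ ν := Nat.cast_nonneg ν
  rw [pow_one] at h7 h8
  rw [one_mul, ek] at h8
  -- `e1 ≥ k sqrt k`
  have hlow : k * Real.exp (1 / 2 * Real.log k) ≤ e1 := by
    rw [he1, ← ek, ← Real.exp_add]
    apply Real.exp_le_exp.2
    rw [ek]
    nlinarith
  -- `e1 exp (ε / 4 log k) ≤ k ^ 2 / 2`
  have hup : e1 * Real.exp (ε / 4 * Real.log k) * Real.exp (ε / 4 * Real.log k) = (k : ℝ) ^ 2 := by
    rw [he1, ← Real.exp_add, ← Real.exp_add, ← ek2]
    congr 1
    ring
  have he4 : 4 ≤ Real.exp (ε / 4 * Real.log k) := by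
    refine le_trans ?_ h6
    have : 1 ≤ Real.log k ^ 3 := one_le_pow₀ hl1
    linarith
  have he10 : 0 < e1 := Real.exp_pos _
  have hke : (k : ℝ) ≤ e1 := by
    have : 1 ≤ Real.exp (1 / 2 * Real.log k) := Real.one_le_exp (by positivity)
    nlinarith
  have hνk : (ν : ℝ) ≤ e1 := by
    have : (ν : ℝ) ≤ 2 * (A + 1) * Real.log k := by nlinarith
    linarith
  -- the sum
  have hs2e : ((sE ε k + ν : ℕ) : ℝ) ≤ 2 * e1 := by
    push_cast
    linarith
  refine ⟨hYk, hYl, h1, h2, ?_, ?_, ?_, ?_, ?_⟩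
  · refine le_trans (le_of_eq ?_) h3.1
    field_simp
    norm_num
  · refine h3.2.trans ?_
    gcongr
    norm_num
  · push_cast
    have h10 : (k : ℝ) * ((400 + 1) * Real.log k) ≤ k * Real.exp (1 / 2 * Real.log k) := by gcongr
    have h11 : 1 ≤ k * Real.log k := by nlinarith
    linarith
  · refine hs2e.trans ?_
    apply mul_le_mul_of_nonneg_left _ (by norm_num)
    calc e1 ≤ (k : ℝ) ^ 2 * (1 / (2 * Real.log k ^ 3)) := by
          rw [mul_one_div, le_div_iff₀ (by positivity), ← hup]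
          have h10 : 2 * Real.log k ^ 3 ≤ Real.exp (ε / 4 * Real.log k) := by
            have : 0 ≤ Real.log k ^ 3 := by positivity
            linarith
          have h11 : e1 * Real.exp (ε / 4 * Real.log k) * 1 ≤
              e1 * Real.exp (ε / 4 * Real.log k) * Real.exp (ε / 4 * Real.log k) := by
            apply mul_le_mul_of_nonneg_left _ (by positivity)
            linarith
          calc e1 * (2 * Real.log k ^ 3) ≤ e1 * Real.exp (ε / 4 * Real.log k) := by gcongr
            _ = e1 * Real.exp (ε / 4 * Real.log k) * 1 := (mul_one _).symm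
            _ ≤ _ := h11
      _ ≤ k ^ 2 * V Y := by gcongr
  · have h10 : ((sE ε k + ν : ℕ) : ℝ) ≤ (k : ℝ) ^ 2 := by
      refine hs2e.trans ?_
      rw [← hup]
      have h11 : e1 * 2 ≤ e1 * (Real.exp (ε / 4 * Real.log k) * Real.exp (ε / 4 * Real.log k)) := by
        apply mul_le_mul_of_nonneg_left _ he10.le
        nlinarith
      linarith
    exact_mod_cast h10

/-- the number of pairs is large -/
theorem mass' (M : ℕ) (hM : 20 ≤ M) (A : ℝ) (hA0 : 0 < A) (ε : ℝ) (hε : 0 < ε) (hε1 : ε ≤ 1) :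
    ∀ᶠ k : ℕ in atTop, ∀ ν : ℕ, (ν : ℝ) ≤ A * Real.log k → Real.exp (1 / 4 * k) ≤
      1 / (2 * (Yk M k : ℝ)) * ((E k / (4 * primorial (wk k)) : ℕ) : ℝ) *
        (1 - dB k (Yk M k) (z (E k / 8))) ^ (sE ε k + ν) := by
  obtain ⟨n0, hn0⟩ := eventually_atTop.1 V_ge_log
  filter_upwards [par_Y z hzV hzt M hM A hA0 ε hε hε1, low_exp 1 one_pos, q_small (1 / 16) (by norm_num),
    Yk_bounds M hM, logpow 3 (1 / 16) (by norm_num), expL 3 (128) (ε / 2) (by norm_num) (by positivity),
    eventually_ge_atTop (n0 + 2), (tendsto_natCast_atTop_atTop (R := ℝ)).eventually_ge_atTop 100,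
    expL 1 (2 * (A + 1)) 1 (by positivity) one_pos, hlog.eventually_ge_atTop 1]
    with k hpar hlow hq hYb hl3 hbig hkn hk100 h8 hl1
  intro ν hν
  obtain ⟨⟨hYk, hYl⟩, -⟩ := hYb
  have hp := hpar ν hν
  have hk0 : (0 : ℝ) < k := by linarith
  have ek : Real.exp (Real.log k) = k := Real.exp_log hk0
  set Y := Yk M k with hY
  set Z := z (E k / 8) with hZ
  set s := sE ε k + ν with hs
  have hVY := V_pos Y
  have hVZ := V_pos Z
  have hvB0 := vB_pos Y Z
  have hkY : k ≤ Y := (Nat.le_self_pow (by norm_num) k).trans hYk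
  have hY1 : 1 ≤ Y := by omega
  have hY0 : (0 : ℝ) < Y := by exact_mod_cast hY1
  have hlY : 0 < Real.log Y := by
    apply Real.log_pos
    have : (2 : ℝ) ≤ Y := by exact_mod_cast (by omega : 2 ≤ Y)
    linarith
  have hVY1 : 1 / (2 * Real.log k ^ 3) ≤ V Y := by
    refine le_trans ?_ (hn0 Y (by omega))
    apply one_div_le_one_div_of_le (by positivity)
    linarith
  have h1 := hlow Y Z s hp
  -- the size of `s v`
  set e1 : ℝ := Real.exp ((2 - ε / 2) * Real.log k) with he1
  have he10 : 0 < e1 := Real.exp_pos _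
  have hsu : ((sE ε k : ℕ) : ℝ) ≤ e1 := Nat.floor_le (Real.exp_pos _).le
  have hke : (k : ℝ) ≤ e1 := by
    rw [he1, ← ek]
    apply Real.exp_le_exp.2
    rw [ek]
    nlinarith
  rw [pow_one, one_mul, ek] at h8
  have hs2e : (s : ℝ) ≤ 2 * e1 := by
    rw [hs]
    push_cast
    have : (ν : ℝ) ≤ 2 * (A + 1) * Real.log k := by nlinarith
    linarith
  have hup : e1 * Real.exp (ε / 2 * Real.log k) = k * k := by
    rw [he1, ← Real.exp_add]
    have : (2 - ε / 2) * Real.log k + ε / 2 * Real.log k = Real.log k + Real.log k := by ring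
    rw [this, Real.exp_add, ek]
  have hl30 : 0 < Real.log k ^ 3 := by positivity
  have hvu : vB Y Z ≤ 4 * Real.log k ^ 3 / k := by
    unfold vB
    rw [div_le_iff₀ hVY]
    have h2 : 4 * Real.log k ^ 3 / k * (1 / (2 * Real.log k ^ 3)) ≤ 4 * Real.log k ^ 3 / k * V Y := by gcongr
    refine hp.hV2.trans (le_trans (le_of_eq ?_) h2)
    field_simp
    norm_num
  have hsv : (s : ℝ) * vB Y Z ≤ k / 16 := by
    calc (s : ℝ) * vB Y Z ≤ (2 * e1) * (4 * Real.log k ^ 3 / k) := by gcongr
      _ = e1 * (128 * Real.log k ^ 3) / (16 * k) := by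
          field_simp
          norm_num
      _ ≤ e1 * Real.exp (ε / 2 * Real.log k) / (16 * k) := by gcongr
      _ = k / 16 := by
          rw [hup]
          field_simp
  have h5 : Real.exp (-(1 / 8 * k)) ≤ (1 - dB k Y Z) ^ s := by
    refine le_trans ?_ h1
    apply Real.exp_le_exp.2
    linarith
  -- the number of positions
  have hqpos : 0 < primorial (wk k) := primorial_pos _
  have hq0 : (0 : ℝ) < primorial (wk k) := by exact_mod_cast hqpos
  have hEl := E_lower k
  have hJ : Real.exp (15 / 16 * k) / 8 ≤ ((E k / (4 * primorial (wk k)) : ℕ) : ℝ) := by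
    have h6 : (E k : ℝ) / (4 * primorial (wk k)) < ((E k / (4 * primorial (wk k)) : ℕ) : ℝ) + 1 := by
      have := Nat.lt_floor_add_one ((E k : ℝ) / ((4 * primorial (wk k) : ℕ) : ℝ))
      rw [Nat.floor_div_eq_div] at this
      push_cast at this
      exact this
    have h8 : Real.exp (15 / 16 * k) / 4 ≤ (E k : ℝ) / (4 * primorial (wk k)) := by
      rw [div_le_div_iff₀ (by norm_num) (by positivity)]
      have e : Real.exp (15 / 16 * k) * Real.exp (1 / 16 * k) = Real.exp k := by
        rw [← Real.exp_add]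
        congr 1
        ring
      calc Real.exp (15 / 16 * k) * (4 * (primorial (wk k) : ℝ)) ≤
            Real.exp (15 / 16 * k) * (4 * Real.exp (1 / 16 * k)) := by gcongr
        _ = Real.exp k * 4 := by rw [← e]; ring
        _ ≤ E k * 4 := by gcongr
    have h9 : 8 ≤ Real.exp (15 / 16 * (k : ℝ)) := by
      have := Real.add_one_le_exp (15 / 16 * (k : ℝ))
      linarith
    linarith
  have hYe : (Y : ℝ) ≤ Real.exp (1 / 16 * k) := by
    rw [← Real.exp_log hY0]
    apply Real.exp_le_exp.2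
    linarith
  have h6 : (16 : ℝ) ≤ Real.exp (1 / 4 * k) := by
    have := Real.add_one_le_exp (1 / 4 * (k : ℝ))
    linarith
  calc Real.exp (1 / 4 * k) ≤ Real.exp (1 / 4 * k) * (Real.exp (1 / 4 * k) / 16) :=
        le_mul_of_one_le_right (Real.exp_pos _).le (by
          rw [le_div_iff₀ (by norm_num)]
          linarith)
    _ = Real.exp (1 / 2 * k) / 16 := by
        have e : Real.exp (1 / 2 * (k : ℝ)) = Real.exp (1 / 4 * k) * Real.exp (1 / 4 * k) := by
          rw [← Real.exp_add]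
          congr 1
          ring
        rw [e]
        ring
    _ ≤ Real.exp (3 / 4 * k) / 16 := by
        have : Real.exp (1 / 2 * (k : ℝ)) ≤ Real.exp (3 / 4 * k) := Real.exp_le_exp.2 (by linarith)
        linarith
    _ = 1 / (2 * Real.exp (1 / 16 * k)) * (Real.exp (15 / 16 * k) / 8) * Real.exp (-(1 / 8 * k)) := by
        have e : Real.exp (15 / 16 * (k : ℝ)) * Real.exp (-(1 / 8 * k)) = Real.exp (3 / 4 * k) * Real.exp (1 / 16 * k) := by
          rw [← Real.exp_add, ← Real.exp_add]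
          congr 1
          ring
        have e2 : 1 / (2 * Real.exp (1 / 16 * (k : ℝ))) * (Real.exp (15 / 16 * k) / 8) * Real.exp (-(1 / 8 * k)) =
            (Real.exp (15 / 16 * k) * Real.exp (-(1 / 8 * k))) / (16 * Real.exp (1 / 16 * k)) := by
          field_simp
          norm_num
        rw [e2, e]
        field_simp
    _ ≤ _ := by gcongr

end limits

end Pool.Agent.H531.RU
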