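import Pool.Agent.H531.RU.Rho
import Pool.Agent.H531.GP.Asm4

set_option autoImplicit false

/-!
# The first phase
-/

open Finset MeasureTheory ProbabilityTheory Filter Topology

namespace Pool.Agent.H531.RU

open Pool.Agent.T2H31.HV Pool.Agent.H531.SI Pool.Agent.H531.MS
open Pool.Agent.H531.CP hiding pos Par low_all ratio_all low_exp
open Pool.Agent.H531.GP hiding Par low_all ratio_all low_exp vB_small dB_small
open Pool.Agent.T2H32.BF hiding PI pos

/-- the end of the first phase, `exp (c log ^ 2 k)` -/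
def Yk (M k : ℕ) : ℕ := k ^ (M * Nat.log 2 k)

theorem log_Yk (M k : ℕ) : Real.log (Yk M k : ℝ) = M * (Nat.log 2 k : ℝ) * Real.log k := by
  unfold Yk
  push_cast
  rw [Real.log_pow]
  push_cast
  ring

theorem log2_bounds : ∀ᶠ k : ℕ in atTop, Real.log k ≤ (Nat.log 2 k : ℝ) ∧ ((Nat.log 2 k : ℕ) : ℝ) ≤ 2 * Real.log k := by
  filter_upwards [hlog.eventually_ge_atTop 4, eventually_ge_atTop 2] with k h1 h2
  have hk0 : (0 : ℝ) < k := by exact_mod_cast (by omega : 0 < k)
  have hl2 := Real.log_two_gt_d9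
  have hl2' := Real.log_two_lt_d9
  have h3 : k < 2 ^ (Nat.log 2 k + 1) := Nat.lt_pow_succ_log_self (by norm_num) k
  have h4 : 2 ^ (Nat.log 2 k) ≤ k := Nat.pow_log_le_self 2 (by omega)
  have h5 : Real.log k ≤ ((Nat.log 2 k : ℝ) + 1) * Real.log 2 := by
    have h6 : (k : ℝ) ≤ 2 ^ (Nat.log 2 k + 1) := by exact_mod_cast h3.le
    have h7 := Real.log_le_log hk0 h6
    rw [Real.log_pow] at h7
    push_cast at h7
    exact h7
  have h6 : (Nat.log 2 k : ℝ) * Real.log 2 ≤ Real.log k := by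
    have h7 : (2 : ℝ) ^ (Nat.log 2 k) ≤ k := by exact_mod_cast h4
    have h8 := Real.log_le_log (by positivity) h7
    rwa [Real.log_pow] at h8
  constructor
  · nlinarith
  · have h9 : (0 : ℝ) ≤ (Nat.log 2 k : ℝ) := Nat.cast_nonneg _
    nlinarith

theorem Yk_bounds (M : ℕ) (hM : 20 ≤ M) : ∀ᶠ k : ℕ in atTop, (k ^ 20 ≤ Yk M k ∧ Real.log (Yk M k) ≤ Real.log k ^ 3) ∧
    M * Real.log k ^ 2 ≤ Real.log (Yk M k) := by
  filter_upwards [log2_bounds, hlog.eventually_ge_atTop (2 * M), hlog.eventually_ge_atTop 1, eventually_ge_atTop 2]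
    with k h1 h2 h3 h4
  have hl0 : 0 < Real.log k := by linarith
  have hM0 : (0 : ℝ) ≤ M := Nat.cast_nonneg M
  have hn1 : 1 ≤ Nat.log 2 k := by
    have h5 := h1.1
    have : (1 : ℝ) ≤ (Nat.log 2 k : ℝ) := h3.trans h5
    exact_mod_cast this
  refine ⟨⟨?_, ?_⟩, ?_⟩
  · unfold Yk
    apply Nat.pow_le_pow_right (by omega)
    calc 20 = 20 * 1 := by norm_num
      _ ≤ M * Nat.log 2 k := Nat.mul_le_mul hM hn1
  · rw [log_Yk]
    calc (M : ℝ) * (Nat.log 2 k : ℝ) * Real.log k ≤ M * (2 * Real.log k) * Real.log k := by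
          have := h1.2
          gcongr
      _ = (2 * M) * Real.log k ^ 2 := by ring
      _ ≤ Real.log k * Real.log k ^ 2 := by gcongr
      _ = Real.log k ^ 3 := by ring
  · rw [log_Yk]
    calc (M : ℝ) * Real.log k ^ 2 = M * Real.log k * Real.log k := by ring
      _ ≤ M * (Nat.log 2 k : ℝ) * Real.log k := by
          have := h1.1
          gcongr

section prob

variable {Ω : Type} [MeasurableSpace Ω] {P : Measure Ω} {a : ℕ → Ω → ℕ}

/-- **Many positions survive.** -/
theorem surv_many' (h : Model P a) (M : ℕ) (hM : 20 ≤ M) (A : ℝ) (hA0 : 0 < A) (hA : A < Real.exp 1) :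
    ∃ κ : ℝ, 0 < κ ∧ ∀ᶠ k : ℕ in atTop, ∀ (H : Finset ℕ) (c J : ℕ), 1 ≤ H.card → (H.card : ℝ) ≤ A * Real.log k →
      Yk M k ≤ J →
      P.real {ω | ((ST H c (primorial (wk k)) (Ico J (2 * J)) (PI (wk k) (Yk M k)) fun p => a p ω).card : ℝ) ≤
        1 / (2 * Yk M k) * J} ≤ Real.exp (-(Real.exp (κ * Real.log k) / 4)) := by
  have := prob h
  obtain ⟨κ, hκ0, hκ⟩ := rho_low A hA0 hA
  obtain ⟨n0, hn0⟩ := eventually_atTop.1 V_ge_log
  have hwtop : Tendsto wk atTop atTop := ww_nat.comp E_top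
  have hex : ∀ᶠ k : ℕ in atTop, 200 * (A + 1) ^ 2 * Real.log k ^ 3 ≤ Real.exp (κ / 2 * Real.log k) := by
    have h1 : Tendsto (fun x : ℝ => x ^ 3 * Real.exp (-(κ / 2) * x)) atTop (𝓝 0) := by
      have := Real.tendsto_pow_mul_exp_neg_atTop_nhds_zero 3
      have h2 : Tendsto (fun x : ℝ => (κ / 2) * x) atTop atTop := tendsto_id.const_mul_atTop (by positivity)
      have h3 := (this.comp h2).const_mul (1 / (κ / 2) ^ 3)
      rw [mul_zero] at h3
      refine h3.congr fun x => ?_
      simp only [Function.comp]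
      rw [neg_mul]
      field_simp
    have h2 := (h1.comp hlog).eventually_lt_const (show 0 < 1 / (200 * (A + 1) ^ 2) by positivity)
    filter_upwards [h2] with k hk
    simp only [Function.comp] at hk
    rw [neg_mul, Real.exp_neg, mul_inv_lt_iff₀ (Real.exp_pos _)] at hk
    have h3 := mul_le_mul_of_nonneg_left hk.le (show (0 : ℝ) ≤ 200 * (A + 1) ^ 2 by positivity)
    have e : 200 * (A + 1) ^ 2 * (1 / (200 * (A + 1) ^ 2) * Real.exp (κ / 2 * Real.log k)) =
        Real.exp (κ / 2 * Real.log k) := by field_simp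
    linarith
  refine ⟨κ / 2, by positivity, ?_⟩
  filter_upwards [hκ, Yk_bounds M hM, wk_le, hex, hlog.eventually_ge_atTop 1, loglog_small (1 / 6) (by norm_num),
    eventually_ge_atTop (n0 + 2), hlog.eventually_ge_atTop 4, hwtop.eventually_ge_atTop 1] with k hρ hY hwk hbig hl1 hll hk2 hl4 hw1
  intro H c J hH1 hHA hYJ
  obtain ⟨⟨hYk, hYl⟩, -⟩ := hY
  obtain ⟨⟨hνw, hν2w⟩, hρn⟩ := hρ H.card hHA
  set w := wk k with hw
  set Y := Yk M k with hYd
  have hkY : k ≤ Y := (Nat.le_self_pow (by norm_num) k).trans hYk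
  have hwY : w ≤ Y := hwk.trans hkY
  have hY1 : 1 ≤ Y := by omega
  have hY0 : (0 : ℝ) < Y := by exact_mod_cast hY1
  have hJ1 : 1 ≤ J := by omega
  have hJ0 : (0 : ℝ) < J := by exact_mod_cast hJ1
  have hYJR : (Y : ℝ) ≤ J := by exact_mod_cast hYJ
  have hw0 : (0 : ℝ) < w := by exact_mod_cast hw1
  set n : ℝ := (H.card : ℝ) with hn
  have hn1 : 1 ≤ n := by rw [hn]; exact_mod_cast hH1
  set E1 : ℝ := Real.exp (κ / 2 * Real.log k) with hE1
  have hE10 : 0 < E1 := Real.exp_pos _
  have hE2 : Real.exp (κ * Real.log k) = E1 * E1 := by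
    rw [hE1, ← Real.exp_add]
    congr 1
    ring
  set Λ : ℝ := E1 / J with hΛ
  have hΛ0 : 0 < Λ := by positivity
  have hρp : ∀ p ∈ PI w Y, E1 * E1 ≤ p * rho H.card w p := by
    intro p hp
    rw [← hE2]
    exact hρn p (mem_PI.1 hp).1.1.le
  have hρ0 : ∀ m, 0 < rho H.card w m := fun m => rho_pos hνw m
  have hKle : ∀ p ∈ PI w Y, n * ((J : ℝ) / p + 1) ≤ 2 * n * J / p := by
    intro p hp
    have hp0 : (0 : ℝ) < p := by exact_mod_cast (mem_PI.1 hp).2.pos
    have h1 : (p : ℝ) ≤ J := by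
      have h2 : (p : ℝ) ≤ Y := by exact_mod_cast (mem_PI.1 hp).1.2
      linarith
    have h2 : 1 ≤ (J : ℝ) / p := by
      rw [le_div_iff₀ hp0]
      linarith
    have e : 2 * n * J / p = n * ((J : ℝ) / p + J / p) := by ring
    rw [e]
    gcongr
  have hnA : n ≤ (A + 1) * Real.log k := by linarith
  have hn2 : n ^ 2 ≤ (A + 1) ^ 2 * Real.log k ^ 2 := by
    rw [← mul_pow]
    gcongr
  have hbig1 : 200 * n ^ 2 * Real.log k ≤ E1 := by
    refine le_trans ?_ hbig
    calc 200 * n ^ 2 * Real.log k ≤ 200 * ((A + 1) ^ 2 * Real.log k ^ 2) * Real.log k := by gcongr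
      _ = 200 * (A + 1) ^ 2 * Real.log k ^ 3 := by ring
  have hbig2 : 2 * n ≤ E1 := by
    refine le_trans ?_ hbig1
    have h1 : n ≤ n ^ 2 := le_self_pow₀ hn1 (by norm_num)
    have h2 : 0 ≤ n ^ 2 := sq_nonneg _
    nlinarith
  have key := lower_ord h H hH1 c (primorial w) (Ico J (2 * J)) w Y (fun p => n * ((J : ℝ) / p + 1))
    (fun p hp => by positivity) (fun p hp r => J_card H c (primorial w) J p r hJ1 (primorial_pos w) (mem_PI.1 hp).2.pos
      (coprime_primorial (mem_PI.1 hp).2 (mem_PI.1 hp).1.1)) hνw Λ hΛ0.le (fun p hp => by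
      have hp0 : (0 : ℝ) < p := by exact_mod_cast (mem_PI.1 hp).2.pos
      have h1 := hρp p hp
      calc Λ * (n * ((J : ℝ) / p + 1)) ≤ Λ * (2 * n * J / p) := mul_le_mul_of_nonneg_left (hKle p hp) hΛ0.le
        _ = E1 * (2 * n) / p := by
            rw [hΛ]
            field_simp
        _ ≤ E1 * E1 / p := by gcongr
        _ ≤ (p * rho H.card w p) / p := by gcongr
        _ = rho H.card w p := by field_simp) ?_
  · have hcard : ((Ico J (2 * J)).card : ℝ) = J := by
      rw [Nat.card_Ico]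
      have : 2 * J - J = J := by omega
      rw [this]
    rw [hcard] at key
    refine le_trans (measureReal_mono ?_ (measure_ne_top _ _)) (key.trans ?_)
    · intro ω hω
      have hω : ((ST H c (primorial w) (Ico J (2 * J)) (PI w Y) fun p => a p ω).card : ℝ) ≤ 1 / (2 * Y) * J := hω
      show ((ST H c (primorial w) (Ico J (2 * J)) (PI w Y) fun p => a p ω).card : ℝ) ≤ _
      refine hω.trans ?_
      -- `1 / Y ≤ rho`
      have h1 : Real.exp (κ * Real.log k) ≤ Y * rho H.card w Y := hρn Y hwY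
      have h2 : 1 ≤ Real.exp (κ * Real.log k) := Real.one_le_exp (by positivity)
      have h3 : 1 / (Y : ℝ) ≤ rho H.card w Y := by
        rw [div_le_iff₀ hY0]
        linarith
      calc 1 / (2 * (Y : ℝ)) * J = J * (1 / Y) / 2 := by
            field_simp
        _ ≤ J * rho H.card w Y / 2 := by gcongr
    · apply Real.exp_le_exp.2
      have e : (J : ℝ) * Λ = E1 := by
        rw [hΛ]
        field_simp
      rw [e]
  · -- the sum
    have hsum : ∑ p ∈ PI w Y, 1 / (p : ℝ) ≤ Real.log k := by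
      have h1 : ∑ p ∈ PI w Y, 1 / (p : ℝ) ≤ Real.log (V w / V Y) := recip_le w Y hwY
      refine h1.trans ?_
      have hVY := V_pos Y
      have hVw := V_pos w
      have hVw1 := V_le_one w
      have h2 := hn0 Y (by omega)
      have hlY : 0 < Real.log Y := by
        apply Real.log_pos
        have : (2 : ℝ) ≤ Y := by exact_mod_cast (by omega : 2 ≤ Y)
        linarith
      have h3 : V w / V Y ≤ 2 * Real.log k ^ 3 := by
        rw [div_le_iff₀ hVY]
        have h4 : 1 / (2 * Real.log k ^ 3) ≤ V Y := by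
          refine le_trans ?_ h2
          apply one_div_le_one_div_of_le (by positivity)
          linarith
        rw [div_le_iff₀ (by positivity)] at h4
        linarith
      have h4 := Real.log_le_log (by positivity) h3
      refine h4.trans ?_
      rw [Real.log_mul (by norm_num) (by positivity), Real.log_pow]
      push_cast
      have := Real.log_two_lt_d9
      linarith
    have he3 : Real.exp 1 < 3 := by
      have := Real.exp_one_lt_d9
      linarith
    have he := Real.exp_pos (1 : ℝ)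
    have hterm : ∀ p ∈ PI w Y, 2 * Λ * n * Real.exp 1 * (n * ((J : ℝ) / p + 1)) / (p * rho H.card w p) ≤
        12 * n ^ 2 / E1 * (1 / p) := by
      intro p hp
      have hp0 : (0 : ℝ) < p := by exact_mod_cast (mem_PI.1 hp).2.pos
      have h1 := hρp p hp
      have h2 := hKle p hp
      calc 2 * Λ * n * Real.exp 1 * (n * ((J : ℝ) / p + 1)) / (p * rho H.card w p)
          ≤ 2 * Λ * n * 3 * (2 * n * J / p) / (E1 * E1) := by
            gcongr
        _ = 12 * n ^ 2 / E1 * (1 / p) := by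
            rw [hΛ]
            field_simp
            norm_num
    refine (sum_le_sum hterm).trans ?_
    rw [← mul_sum]
    calc 12 * n ^ 2 / E1 * ∑ p ∈ PI w Y, 1 / (p : ℝ) ≤ 12 * n ^ 2 / E1 * Real.log k := by gcongr
      _ = 12 * n ^ 2 * Real.log k / E1 := by ring
      _ ≤ 1 / 4 := by
          rw [div_le_iff₀ hE10]
          nlinarith [mul_nonneg (sq_nonneg n) (show (0 : ℝ) ≤ Real.log k by linarith)]

end prob

end Pool.Agent.H531.RU
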