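import Pool.Agent.H531.RU.Mgf

set_option autoImplicit false

/-!
# The density of the positions that survive
-/

open Finset MeasureTheory ProbabilityTheory Filter Topology

namespace Pool.Agent.H531.RU

open Pool.Agent.T2H31.HV Pool.Agent.H531.SI Pool.Agent.H531.MS
open Pool.Agent.H531.CP hiding pos Par low_all ratio_all low_exp
open Pool.Agent.H531.GP hiding Par low_all ratio_all low_exp vB_small dB_small
open Pool.Agent.T2H32.BF hiding PI pos

theorem hlog : Tendsto (fun k : ℕ => Real.log k) atTop atTop := Real.tendsto_log_atTop.comp tendsto_natCast_atTop_atTop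

theorem loglog_small (c : ℝ) (hc : 0 < c) : ∀ᶠ k : ℕ in atTop, Real.log (Real.log k) ≤ c * Real.log k := by
  have h1 := Real.isLittleO_log_id_atTop.bound hc
  have h2 := hlog.eventually h1
  filter_upwards [h2, hlog.eventually_ge_atTop 1] with k hk h3
  simp only [id, Real.norm_eq_abs] at hk
  have h4 := le_abs_self (Real.log (Real.log k))
  rw [abs_of_pos (show (0 : ℝ) < Real.log k by linarith)] at hk
  linarith

theorem log_wk (c : ℝ) (hc : 0 < c) : ∀ᶠ k : ℕ in atTop, (1 - c) * Real.log k ≤ Real.log (wk k) := by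
  filter_upwards [wk_lower, loglog_small (c / 2) (by positivity), hlog.eventually_ge_atTop (max 1 (2 * Real.log 4 / c)),
    eventually_ge_atTop 2] with k h1 h2 h3 h4
  have hl1 : 1 ≤ Real.log k := (le_max_left _ _).trans h3
  have hl2 : 2 * Real.log 4 / c ≤ Real.log k := (le_max_right _ _).trans h3
  rw [div_le_iff₀ hc] at hl2
  have hk0 : (0 : ℝ) < k := by exact_mod_cast (by omega : 0 < k)
  have hl0 : 0 < Real.log k := by linarith
  have h5 := Real.log_le_log (by positivity) h1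
  rw [Real.log_div hk0.ne' (by positivity), Real.log_mul (by norm_num) hl0.ne'] at h5
  linarith

/-- **The ratio of the densities.** -/
theorem V_ratio_low (δ : ℝ) (hδ : 0 < δ) : ∀ᶠ k : ℕ in atTop, ∀ n, wk k ≤ n →
    Real.exp (-δ) * (Real.log k / Real.log n) ≤ V n / V (wk k) := by
  have hg := gE_pos
  have hlow : gE * Real.exp (-(δ / 4)) < gE := by
    have : Real.exp (-(δ / 4)) < 1 := by
      rw [Real.exp_lt_one_iff]
      linarith
    nlinarith
  have hup : gE < gE * Real.exp (δ / 4) := by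
    have : 1 < Real.exp (δ / 4) := by
      rw [Real.one_lt_exp_iff]
      positivity
    nlinarith
  have hm : Tendsto (fun n : ℕ => V n * Real.log n) atTop (𝓝 gE) := mertens
  obtain ⟨M0, hM0⟩ := eventually_atTop.1 ((hm.eventually_const_lt hlow).and (hm.eventually_lt_const hup))
  have hwtop : Tendsto wk atTop atTop := ww_nat.comp E_top
  have hc : 0 < 1 - Real.exp (-(δ / 2)) := by
    have : Real.exp (-(δ / 2)) < 1 := by
      rw [Real.exp_lt_one_iff]
      linarith
    linarith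
  filter_upwards [hwtop.eventually_ge_atTop (M0 + 2), log_wk _ hc, hlog.eventually_ge_atTop 1] with k h1 h2 h3
  intro n hn
  set w := wk k with hw
  have hw2 : (2 : ℝ) ≤ w := by exact_mod_cast (by omega : 2 ≤ w)
  have hn2 : (2 : ℝ) ≤ n := by exact_mod_cast (by omega : 2 ≤ n)
  have hlw : 0 < Real.log w := Real.log_pos (by linarith)
  have hln : 0 < Real.log n := Real.log_pos (by linarith)
  have h4 := (hM0 n (by omega)).1
  have h5 := (hM0 w (by omega)).2
  have hVw := V_pos w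
  have hVn := V_pos n
  rw [le_div_iff₀ hVw]
  -- `V w ≤ g e^(δ/4) / log w`
  have h6 : V w ≤ gE * Real.exp (δ / 4) / Real.log w := by
    rw [le_div_iff₀ hlw]
    exact h5.le
  have h7 : gE * Real.exp (-(δ / 4)) / Real.log n ≤ V n := by
    rw [div_le_iff₀ hln]
    exact h4.le
  refine le_trans ?_ h7
  have h8 : Real.exp (-(δ / 2)) * Real.log k ≤ Real.log w := by linarith
  have e1 : Real.exp (-δ) = Real.exp (-(δ / 2)) * (Real.exp (-(δ / 4)) * Real.exp (-(δ / 4))) := by
    rw [← Real.exp_add, ← Real.exp_add]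
    congr 1
    ring
  have e2 : Real.exp (-(δ / 4)) * Real.exp (δ / 4) = 1 := by
    rw [← Real.exp_add]
    simp
  calc Real.exp (-δ) * (Real.log k / Real.log n) * V w
      ≤ Real.exp (-δ) * (Real.log k / Real.log n) * (gE * Real.exp (δ / 4) / Real.log w) := by
        apply mul_le_mul_of_nonneg_left h6
        have : 0 ≤ Real.log k := by linarith
        positivity
    _ = (Real.exp (-(δ / 2)) * Real.log k) * (Real.exp (-(δ / 4)) * Real.exp (δ / 4)) *
        (gE * Real.exp (-(δ / 4)) / Real.log n) / Real.log w := by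
        rw [e1]
        field_simp
    _ = (Real.exp (-(δ / 2)) * Real.log k) / Real.log w * (gE * Real.exp (-(δ / 4)) / Real.log n) := by
        rw [e2]
        ring
    _ ≤ 1 * (gE * Real.exp (-(δ / 4)) / Real.log n) := by
        apply mul_le_mul_of_nonneg_right _ (by positivity)
        rw [div_le_one hlw]
        exact h8
    _ = _ := one_mul _

/-- one factor -/
theorem fac_low (ν p : ℕ) (hp : 2 ≤ p) (h : 4 * ν ≤ p) :
    (1 - 1 / (p : ℝ)) ^ ν * Real.exp (-((ν : ℝ) ^ 2 * (1 / (p : ℝ) ^ 2))) ≤ 1 - (ν : ℝ) / p := by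
  have hp0 : (2 : ℝ) ≤ p := by exact_mod_cast hp
  have hp1 : (0 : ℝ) < p := by linarith
  have hνp : 4 * (ν : ℝ) ≤ p := by exact_mod_cast h
  set x : ℝ := 1 / (p : ℝ) with hx
  have hx0 : 0 < x := by positivity
  have hx1 : x ≤ 1 / 2 := by
    rw [hx]
    gcongr
  have h1 : 1 - x ≤ Real.exp (-x) := by
    have := Real.add_one_le_exp (-x)
    linarith
  have h2 : (1 - x) ^ ν ≤ Real.exp (-(ν * x)) := by
    calc (1 - x) ^ ν ≤ Real.exp (-x) ^ ν := pow_le_pow_left₀ (by linarith) h1 _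
      _ = Real.exp (-(ν * x)) := by
          rw [← Real.exp_nat_mul]
          congr 1
          ring
  have e0 : (ν : ℝ) / p = ν * x := by rw [hx]; ring
  have e00 : 1 / (p : ℝ) ^ 2 = x ^ 2 := by rw [hx]; ring
  rw [e0, e00]
  set y : ℝ := ν * x with hy
  have hy0 : 0 ≤ y := by positivity
  have hy1 : y ≤ 1 / 4 := by
    rw [hy, hx, mul_one_div, div_le_iff₀ hp1]
    linarith
  have e1 : (ν : ℝ) ^ 2 * x ^ 2 = y ^ 2 := by rw [hy]; ring
  rw [e1]
  refine (mul_le_mul_of_nonneg_right h2 (Real.exp_pos _).le).trans ?_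
  rw [← Real.exp_add]
  -- `exp (-y - y^2) ≤ 1 - y`
  have h3 : 1 + (y + y ^ 2) ≤ Real.exp (y + y ^ 2) := by linarith [Real.add_one_le_exp (y + y ^ 2)]
  have h5 := Real.quadratic_le_exp_of_nonneg (show 0 ≤ y + y ^ 2 by positivity)
  have e2 : -y + -y ^ 2 = -(y + y ^ 2) := by ring
  rw [e2, Real.exp_neg, inv_le_iff_one_le_mul₀ (Real.exp_pos _)]
  have h4 : 1 ≤ (1 - y) * (1 + (y + y ^ 2) + (y + y ^ 2) ^ 2 / 2) := by
    have e3 : (1 - y) * (1 + (y + y ^ 2) + (y + y ^ 2) ^ 2 / 2) = 1 + y ^ 2 * (1 / 2 - y / 2 - y ^ 2 / 2 - y ^ 3 / 2) := by ring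
    rw [e3]
    have h6 : y ^ 2 ≤ 1 / 16 := by nlinarith
    have h7 : y ^ 3 ≤ 1 / 64 := by
      calc y ^ 3 = y ^ 2 * y := by ring
        _ ≤ 1 / 16 * (1 / 4) := by gcongr
        _ = 1 / 64 := by norm_num
    have : 0 ≤ y ^ 2 * (1 / 2 - y / 2 - y ^ 2 / 2 - y ^ 3 / 2) := mul_nonneg (sq_nonneg _) (by linarith)
    linarith
  refine h4.trans (mul_le_mul_of_nonneg_left ?_ (by linarith))
  linarith

/-- the product -/
theorem rho_low_pow {ν w n : ℕ} (hw : 4 * ν ≤ w) (hw1 : 1 ≤ w) (hν : ν ^ 2 ≤ w) (hn : w ≤ n) :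
    (V n / V w) ^ ν * Real.exp (-1) ≤ rho ν w n := by
  unfold rho
  rw [V_ratio w n hn, ← prod_pow]
  have h1 : (∏ p ∈ PI w n, (1 - 1 / (p : ℝ)) ^ ν) * ∏ p ∈ PI w n, Real.exp (-((ν : ℝ) ^ 2 * (1 / (p : ℝ) ^ 2))) ≤
      ∏ p ∈ PI w n, (1 - (ν : ℝ) / p) := by
    rw [← prod_mul_distrib]
    refine prod_le_prod (fun p hp => ?_) fun p hp => ?_
    · have := (fac_pos (mem_PI.1 hp).2).le
      positivity
    · have h2 := mem_PI.1 hp
      exact fac_low ν p h2.2.two_le (by omega)
  refine le_trans ?_ h1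
  apply mul_le_mul_of_nonneg_left
  · rw [← Real.exp_sum]
    apply Real.exp_le_exp.2
    rw [sum_neg_distrib, ← mul_sum]
    apply neg_le_neg
    have h3 := sum_inv_sq_PI w n hw1 hn
    have hw0 : (0 : ℝ) < w := by exact_mod_cast hw1
    have hν' : (ν : ℝ) ^ 2 ≤ w := by exact_mod_cast hν
    calc (ν : ℝ) ^ 2 * ∑ p ∈ PI w n, 1 / (p : ℝ) ^ 2 ≤ w * (1 / w) := by gcongr
      _ = 1 := by field_simp
  · exact prod_nonneg fun p hp => pow_nonneg (fac_pos (mem_PI.1 hp).2).le _

/-- **The density, for at most `A log k` elements, `A < e`.** -/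
theorem rho_low (A : ℝ) (hA0 : 0 < A) (hA : A < Real.exp 1) : ∃ κ : ℝ, 0 < κ ∧ ∀ᶠ k : ℕ in atTop, ∀ ν : ℕ,
    (ν : ℝ) ≤ A * Real.log k → (4 * ν ≤ wk k ∧ ν ^ 2 ≤ wk k) ∧
      ∀ n : ℕ, wk k ≤ n → Real.exp (κ * Real.log k) ≤ n * rho ν (wk k) n := by
  have hlA : Real.log A < 1 := by
    rw [Real.log_lt_iff_lt_exp hA0]
    exact hA
  set τ : ℝ := (1 - Real.log A) / 2 with hτ
  have hτ0 : 0 < τ := by rw [hτ]; linarith
  set κ : ℝ := min (1 / 4) (A * τ / 2) with hκ
  have hκ0 : 0 < κ := by rw [hκ]; positivity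
  have hκ1 : κ ≤ 1 / 4 := min_le_left _ _
  have hκ2 : κ ≤ A * τ / 2 := min_le_right _ _
  refine ⟨κ, hκ0, ?_⟩
  filter_upwards [V_ratio_low τ hτ0, log_wk (1 / 4) (by norm_num), wk_lower, hlog.eventually_ge_atTop (max 1 (1 / κ)),
    logpow 3 (1 / (4 * (A + 1) ^ 2 * 4)) (by positivity), eventually_ge_atTop 2] with k h1 h2 h3 h4 h5 h6
  intro ν hν
  have hl1 : 1 ≤ Real.log k := (le_max_left _ _).trans h4
  have hlκ : 1 / κ ≤ Real.log k := (le_max_right _ _).trans h4
  rw [div_le_iff₀ hκ0] at hlκ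
  have hk0 : (0 : ℝ) < k := by exact_mod_cast (by omega : 0 < k)
  set w := wk k with hw
  have hν0 : (0 : ℝ) ≤ ν := Nat.cast_nonneg ν
  -- sizes
  have hbig : 4 * ((A + 1) * Real.log k) ^ 2 ≤ w := by
    refine le_trans ?_ h3
    rw [le_div_iff₀ (by positivity)]
    have h7 := mul_le_mul_of_nonneg_left h5 (show (0 : ℝ) ≤ 4 * (A + 1) ^ 2 * 4 by positivity)
    have e : 4 * (A + 1) ^ 2 * 4 * (1 / (4 * (A + 1) ^ 2 * 4) * (k : ℝ)) = k := by field_simp
    rw [e] at h7
    calc 4 * ((A + 1) * Real.log k) ^ 2 * (4 * Real.log k) = 4 * (A + 1) ^ 2 * 4 * Real.log k ^ 3 := by ring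
      _ ≤ (k : ℝ) := h7
  have hνA : (ν : ℝ) ≤ (A + 1) * Real.log k := by linarith
  have hA1 : 1 ≤ (A + 1) * Real.log k := by nlinarith
  have hνw : 4 * (ν : ℝ) ≤ w := by
    refine le_trans ?_ hbig
    have : (A + 1) * Real.log k ≤ ((A + 1) * Real.log k) ^ 2 := le_self_pow₀ hA1 (by norm_num)
    linarith
  have hν2w : (ν : ℝ) ^ 2 ≤ w := by
    refine le_trans ?_ hbig
    have : (ν : ℝ) ^ 2 ≤ ((A + 1) * Real.log k) ^ 2 := by gcongr
    have h8 : 0 ≤ ((A + 1) * Real.log k) ^ 2 := sq_nonneg _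
    linarith
  have hνwN : 4 * ν ≤ w := by exact_mod_cast hνw
  have hν2wN : ν ^ 2 ≤ w := by exact_mod_cast hν2w
  refine ⟨⟨hνwN, hν2wN⟩, fun n hn => ?_⟩
  have hw4 : (4 : ℝ) ≤ w := by
    refine le_trans ?_ hbig
    have : 1 ≤ ((A + 1) * Real.log k) ^ 2 := one_le_pow₀ hA1
    linarith
  have hw1 : 1 ≤ w := by
    have : (1 : ℝ) ≤ w := by linarith
    exact_mod_cast this
  have hn4 : (4 : ℝ) ≤ n := hw4.trans (by exact_mod_cast hn)
  have hn0 : (0 : ℝ) < n := by linarith
  have hln : 0 < Real.log n := Real.log_pos (by linarith)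
  have h7 := rho_low_pow hνwN hw1 hν2wN hn
  have h8 := h1 n hn
  have hlk : 0 < Real.log k := by linarith
  -- the ratio as an exponential
  set x : ℝ := Real.log n / Real.log k with hx
  have hx0 : 0 < x := by positivity
  have hx34 : 3 / 4 ≤ x := by
    rw [hx, le_div_iff₀ hlk]
    have h9 : Real.log w ≤ Real.log n := Real.log_le_log (by linarith) (by exact_mod_cast hn)
    linarith
  have e3 : Real.exp (-τ) * (Real.log k / Real.log n) = Real.exp (-(τ + Real.log x)) := by
    rw [neg_add, Real.exp_add, Real.exp_neg (Real.log x), Real.exp_log hx0, hx, inv_div]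
  rw [e3] at h8
  have h10 : Real.exp (-(ν * (τ + Real.log x))) * Real.exp (-1) ≤ rho ν w n := by
    refine le_trans ?_ h7
    apply mul_le_mul_of_nonneg_right _ (Real.exp_pos _).le
    calc Real.exp (-(ν * (τ + Real.log x))) = Real.exp (-(τ + Real.log x)) ^ ν := by
          rw [← Real.exp_nat_mul]
          congr 1
          ring
      _ ≤ (V n / V w) ^ ν := pow_le_pow_left₀ (Real.exp_pos _).le h8 _
  have e4 : (n : ℝ) = Real.exp (x * Real.log k) := by
    rw [hx, div_mul_cancel₀ _ hlk.ne', Real.exp_log hn0]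
  have h11 : Real.exp (x * Real.log k) * (Real.exp (-(ν * (τ + Real.log x))) * Real.exp (-1)) ≤ n * rho ν w n := by
    rw [← e4]
    exact mul_le_mul_of_nonneg_left h10 hn0.le
  refine le_trans ?_ h11
  rw [← Real.exp_add, ← Real.exp_add]
  apply Real.exp_le_exp.2
  -- `2 κ log k ≤ x log k - ν (τ + log x)`
  have h12 : 2 * κ * Real.log k ≤ x * Real.log k - ν * (τ + Real.log x) := by
    rcases le_or_gt (τ + Real.log x) 0 with h13 | h13
    · have h14 : (ν : ℝ) * (τ + Real.log x) ≤ 0 := mul_nonpos_of_nonneg_of_nonpos hν0 h13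
      have h15 : 2 * κ * Real.log k ≤ 3 / 4 * Real.log k := by
        apply mul_le_mul_of_nonneg_right _ hlk.le
        linarith
      have h16 : 3 / 4 * Real.log k ≤ x * Real.log k := mul_le_mul_of_nonneg_right hx34 hlk.le
      linarith
    · have h14 : (ν : ℝ) * (τ + Real.log x) ≤ A * Real.log k * (τ + Real.log x) := mul_le_mul_of_nonneg_right hν h13.le
      -- `A log x ≤ A log A + x - A`
      have h15 : A * Real.log x ≤ A * Real.log A + x - A := by
        have h16 := Real.log_le_sub_one_of_pos (show 0 < x / A by positivity)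
        rw [Real.log_div hx0.ne' hA0.ne'] at h16
        have h17 := mul_le_mul_of_nonneg_left h16 hA0.le
        have e5 : A * (x / A - 1) = x - A := by field_simp
        rw [e5] at h17
        linarith
      have h18 : A * τ ≤ x - A * (τ + Real.log x) := by
        have e6 : Real.log A = 1 - 2 * τ := by rw [hτ]; ring
        rw [e6] at h15
        linarith
      have h19 : A * τ * Real.log k ≤ (x - A * (τ + Real.log x)) * Real.log k := mul_le_mul_of_nonneg_right h18 hlk.le
      have h20 : 2 * κ * Real.log k ≤ A * τ * Real.log k := by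
        apply mul_le_mul_of_nonneg_right _ hlk.le
        linarith
      linarith
  linarith

end Pool.Agent.H531.RU
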