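import Pool.Agent.H531.RU.All
import Pool.Agent.H531.MS.Low
import Pool.Agent.H531.SI.Opt

set_option autoImplicit false

/-!
# Runs of consecutive elements in arithmetic progression
-/

open Finset MeasureTheory ProbabilityTheory Filter Topology
open scoped ENNReal

namespace Pool.Agent.H531.RU

open Pool.Agent.T2H32.BF (R V Model z0)
open Pool.Agent.H531.MS (Good)
open Pool.Agent.H531.GP (Adm)

/-- `n, n + d, …, n + (k - 1) d` are consecutive elements of `S` -/
def IsRun (S : Set ℕ) (n d k : ℕ) : Prop := 0 < d ∧ ∀ m ≤ (k - 1) * d, (n + m ∈ S ↔ d ∣ m)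

/-- the length of the longest run up to `X` -/
noncomputable def longest (S : Set ℕ) (X : ℕ) : ℕ := sSup {k : ℕ | ∃ n d, n + (k - 1) * d ≤ X ∧ IsRun S n d k}

/-- all the patterns -/
def Pat (S : Set ℕ) : Prop := ∀ δ : ℝ, 0 < δ → ∀ᶠ X : ℕ in atTop, ∀ (H : Finset ℕ) (G : ℕ), H.Nonempty →
  (H.card : ℝ) ≤ (Real.exp 1 - δ) * Real.log (Real.log X) →
  Adm H → (∀ u ∈ H, u ≤ G) → (G : ℝ) ≤ Real.exp ((2 - δ) * Real.log (Real.log X)) →
  ∃ n, 1 ≤ n ∧ n + G ≤ X ∧ ∀ m ≤ G, (n + m ∈ S ↔ m ∈ H)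

theorem ll_top : Tendsto (fun X : ℕ => Real.log (Real.log X)) atTop atTop :=
  Real.tendsto_log_atTop.comp (Real.tendsto_log_atTop.comp tendsto_natCast_atTop_atTop)

theorem prim_lower (η : ℝ) (hη : 0 < η) : ∀ᶠ k : ℕ in atTop, (1 - η) * k ≤ Real.log (primorial k) := by
  have h1 := Pool.Agent.Helper601.PNT.theta_div_tendsto.comp (tendsto_natCast_atTop_atTop (R := ℝ))
  filter_upwards [h1.eventually_const_lt (show 1 - η < 1 by linarith), eventually_ge_atTop 1] with k h3 h4
  have hk0 : (0 : ℝ) < k := by exact_mod_cast h4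
  simp only [Function.comp] at h3
  rw [lt_div_iff₀ hk0, Chebyshev.theta_eq_log_primorial, Nat.floor_natCast] at h3
  exact h3.le

theorem prim_upper (η : ℝ) (hη : 0 < η) : ∀ᶠ k : ℕ in atTop, Real.log (primorial k) ≤ (1 + η) * k := by
  have h1 := Pool.Agent.Helper601.PNT.theta_div_tendsto.comp (tendsto_natCast_atTop_atTop (R := ℝ))
  filter_upwards [h1.eventually_lt_const (show 1 < 1 + η by linarith), eventually_ge_atTop 1] with k h3 h4
  have hk0 : (0 : ℝ) < k := by exact_mod_cast h4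
  simp only [Function.comp] at h3
  rw [div_lt_iff₀ hk0, Chebyshev.theta_eq_log_primorial, Nat.floor_natCast] at h3
  exact h3.le

theorem prim_dvd {k d : ℕ} (h : ∀ p, p.Prime → p ≤ k → p ∣ d) : primorial k ∣ d := by
  unfold primorial
  apply Finset.prod_primes_dvd
  · intro p hp
    exact (mem_filter.1 hp).2.prime
  · intro p hp
    rw [mem_filter, mem_range] at hp
    exact h p hp.2 (by omega)

theorem prim_log {k d : ℕ} (hd : 0 < d) (h : ∀ p, p.Prime → p ≤ k → p ∣ d) :
    Real.log (primorial k) ≤ Real.log d := by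
  apply Real.log_le_log
  · exact_mod_cast primorial_pos k
  · exact_mod_cast Nat.le_of_dvd hd (prim_dvd h)

theorem adm_of {H : Finset ℕ} (h : ∀ p, p.Prime → ∃ c < p, ∀ u ∈ H, u % p ≠ c) : Adm H := by
  intro p hp
  obtain ⟨c, hc, h1⟩ := h p hp
  refine ⟨p - c, fun u hu hd => h1 u hu ?_⟩
  have h2 : u + (p - c) + c ≡ c [MOD p] := by
    have := (Nat.modEq_zero_iff_dvd.2 hd).add_right c
    rwa [zero_add] at this
  have e : u + (p - c) + c = u + p := by omega
  rw [e] at h2
  unfold Nat.ModEq at h2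
  rw [Nat.add_mod_right, Nat.mod_eq_of_lt hc] at h2
  exact h2

theorem adm_prog {k d : ℕ} (h : ∀ p, p.Prime → p ≤ k → p ∣ d) : Adm ((range k).image fun i => i * d) := by
  classical
  apply adm_of
  intro p hp
  by_cases hpd : p ∣ d
  · refine ⟨1, hp.one_lt, fun u hu => ?_⟩
    obtain ⟨i, -, rfl⟩ := mem_image.1 hu
    rw [Nat.mod_eq_zero_of_dvd (hpd.mul_left i)]
    norm_num
  · have hkp : k < p := by
      by_contra hcon
      exact hpd (h p hp (by omega))
    have h1 : (((range k).image fun i => i * d).image fun u => u % p).card < (range p).card := by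
      refine lt_of_le_of_lt (card_image_le.trans card_image_le) ?_
      rw [card_range, card_range]
      exact hkp
    obtain ⟨c, hc1, hc2⟩ := exists_mem_notMem_of_card_lt_card h1
    refine ⟨c, mem_range.1 hc1, fun u hu he => hc2 ?_⟩
    exact mem_image.2 ⟨u, hu, he⟩

/-- **The runs that exist.** -/
theorem exists_run {S : Set ℕ} (hS : Pat S) (ε : ℝ) (hε : 0 < ε) : ∀ᶠ X : ℕ in atTop, ∀ k d : ℕ, 1 ≤ k → 1 ≤ d →
    (∀ p, p.Prime → p ≤ k → p ∣ d) → (((k - 1) * d : ℕ) : ℝ) ≤ Real.exp ((2 - ε) * Real.log (Real.log X)) →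
    ∃ n, 1 ≤ n ∧ n + (k - 1) * d ≤ X ∧ IsRun S n d k := by
  classical
  obtain ⟨K, hK⟩ := eventually_atTop.1 (prim_lower (1 / 5) (by norm_num))
  set δ := min ε (1 / 5) with hδ
  have hδ0 : 0 < δ := lt_min hε (by norm_num)
  have hδε : δ ≤ ε := min_le_left _ _
  have hδ5 : δ ≤ 1 / 5 := min_le_right _ _
  filter_upwards [hS δ hδ0, ll_top.eventually_ge_atTop ((K : ℝ) + 1)] with X hX hL k d hk hd hp hkd
  set L := Real.log (Real.log X) with hLdef
  have he27 := Real.exp_one_gt_d9
  have hK0 : (0 : ℝ) ≤ K := Nat.cast_nonneg K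
  have hL0 : 0 < L := by linarith
  have hkL : (k : ℝ) ≤ (Real.exp 1 - δ) * L := by
    have h1 : (5 / 2 : ℝ) * L ≤ (Real.exp 1 - δ) * L := mul_le_mul_of_nonneg_right (by linarith) hL0.le
    refine le_trans ?_ h1
    rcases le_or_gt k K with h2 | h2
    · have : (k : ℝ) ≤ K := by exact_mod_cast h2
      linarith
    · rcases Nat.lt_or_ge 1 k with h3 | h3
      · have h4 := hK k h2.le
        have h5 := prim_log hd hp
        have hd0 : (0 : ℝ) < d := by exact_mod_cast hd
        have h6 : Real.log d ≤ (2 - ε) * L := by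
          rw [Real.log_le_iff_le_exp hd0]
          refine le_trans ?_ hkd
          have : 1 * d ≤ (k - 1) * d := Nat.mul_le_mul_right _ (by omega)
          exact_mod_cast (by omega : d ≤ (k - 1) * d)
        have h7 : (2 - ε) * L ≤ 2 * L := mul_le_mul_of_nonneg_right (by linarith) hL0.le
        linarith
      · have : (k : ℝ) ≤ 1 := by exact_mod_cast h3
        linarith
  have hGL : (((k - 1) * d : ℕ) : ℝ) ≤ Real.exp ((2 - δ) * L) := by
    refine hkd.trans (Real.exp_le_exp.2 ?_)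
    apply mul_le_mul_of_nonneg_right _ hL0.le
    linarith
  have hcard : (((range k).image fun i => i * d).card : ℝ) ≤ (Real.exp 1 - δ) * L := by
    refine le_trans ?_ hkL
    have h1 : ((range k).image fun i => i * d).card ≤ k := card_image_le.trans (by rw [card_range])
    exact_mod_cast h1
  obtain ⟨n, hn1, hn2, hn3⟩ := hX ((range k).image fun i => i * d) ((k - 1) * d)
    ⟨0, mem_image.2 ⟨0, mem_range.2 (by omega), by simp⟩⟩ hcard (adm_prog hp) (by
      intro u hu
      obtain ⟨i, hi, rfl⟩ := mem_image.1 hu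
      rw [mem_range] at hi
      exact Nat.mul_le_mul_right _ (by omega)) hGL
  refine ⟨n, hn1, hn2, hd, fun m hm => ?_⟩
  rw [hn3 m hm]
  constructor
  · intro h1
    obtain ⟨i, hi, rfl⟩ := mem_image.1 h1
    exact Dvd.intro_left i rfl
  · rintro ⟨c, rfl⟩
    refine mem_image.2 ⟨c, mem_range.2 ?_, by ring⟩
    have h1 : d * c ≤ d * (k - 1) := by
      rw [mul_comm d (k - 1)]
      exact hm
    have h2 := Nat.le_of_mul_le_mul_left h1 hd
    omega

/-- **The gaps.** -/
theorem gap_up {b : ℕ → ℕ} (hb : Good b) {c : ℝ} (hc : 2 < c) :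
    ∀ᶠ n : ℕ in atTop, ∃ m ∈ R z0 b, n < m ∧ (m : ℝ) ≤ n + Real.log n ^ c := by
  obtain ⟨h1, -⟩ := Pool.Agent.H531.MS.good_limits hb hc
  have h2 : (0 : ℝ≥0∞) < liminf (fun x : ℝ => ENNReal.ofReal (Pool.Agent.H531.MS.Rr (R z0 b) c x)) atTop := by
    rw [h1]
    exact Pool.Agent.H531.MS.fm_pos hc
  have h3 := (tendsto_natCast_atTop_atTop (R := ℝ)).eventually (eventually_lt_of_lt_liminf h2)
  filter_upwards [h3] with n hn
  by_contra hcon
  push Not at hcon
  have h4 : R z0 b ∩ {m : ℕ | (n : ℝ) < m ∧ (m : ℝ) ≤ n + Real.log n ^ c} = ∅ := by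
    ext m
    simp only [Set.mem_inter_iff, Set.mem_ofPred_eq, Set.mem_empty_iff_false, iff_false, not_and, not_le]
    intro hm1 hm2
    exact hcon m hm1 (by exact_mod_cast hm2)
  rw [ENNReal.ofReal_pos] at hn
  unfold Pool.Agent.H531.MS.Rr at hn
  rw [h4, Set.ncard_empty] at hn
  simp at hn

/-- **The runs that do not exist.** -/
theorem run_dvd {b : ℕ → ℕ} (hb : Good b) (ε : ℝ) (hε : 0 < ε) : ∀ᶠ n : ℕ in atTop, ∀ d k : ℕ, 2 ≤ k →
    IsRun (R z0 b) n d k →
      (d : ℝ) ≤ Real.exp ((2 + ε) * Real.log (Real.log n)) ∧ ∀ p, p.Prime → p ≤ k → p ∣ d := by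
  classical
  obtain ⟨K, hK⟩ := eventually_atTop.1 (prim_lower (1 / 2) (by norm_num))
  have hz : ∀ᶠ n : ℕ in atTop, (K : ℝ) + 2 + 2 * (2 + ε) * Real.log (Real.log n) ≤ z0 n := by
    have hlog : Tendsto (fun X : ℕ => Real.log X) atTop atTop :=
      Real.tendsto_log_atTop.comp tendsto_natCast_atTop_atTop
    have h1 := Real.isLittleO_log_id_atTop.bound (show (0 : ℝ) < 1 / (8 * (2 + ε)) by positivity)
    have h2 := hlog.eventually h1
    have h3 := (isLittleO_log_rpow_atTop (show (0 : ℝ) < 11 / 20 by norm_num)).bound (show (0 : ℝ) < 1 by norm_num)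
    have h4 := (tendsto_natCast_atTop_atTop (R := ℝ)).eventually h3
    filter_upwards [h2, h4, Pool.Agent.H531.SI.z0_large, hlog.eventually_ge_atTop (2 * (K + 3)), ll_top.eventually_ge_atTop 0,
      eventually_ge_atTop 1] with n h5 h6 h7 h8 h9 h10
    have hn0 : (0 : ℝ) ≤ n := Nat.cast_nonneg n
    have hK0 : (0 : ℝ) ≤ K := Nat.cast_nonneg K
    simp only [id, Real.norm_eq_abs] at h5 h6
    rw [abs_of_nonneg h9, abs_of_nonneg (by linarith)] at h5
    rw [abs_of_nonneg (by linarith), abs_of_nonneg (by positivity), one_mul] at h6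
    have h11 : (n : ℝ) ^ (11 / 20 : ℝ) < z0 n + 1 := by
      have h12 := Nat.lt_floor_add_one ((n : ℝ) ^ (11 / 20 : ℝ))
      have h13 : (⌊(n : ℝ) ^ (11 / 20 : ℝ)⌋₊ : ℝ) ≤ z0 n := by exact_mod_cast h7
      linarith
    have h14 : 2 * (2 + ε) * Real.log (Real.log n) ≤ 1 / 4 * Real.log n := by
      have : 2 * (2 + ε) * Real.log (Real.log n) ≤ 2 * (2 + ε) * (1 / (8 * (2 + ε)) * Real.log n) := by gcongr
      refine this.trans (le_of_eq ?_)
      field_simp
      ring
    linarith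
  filter_upwards [gap_up hb (show (2 : ℝ) < 2 + ε by linarith), hz, ll_top.eventually_ge_atTop 1] with n hgap hzn hL
    d k hk hrun
  obtain ⟨hd, hr⟩ := hrun
  set L := Real.log (Real.log n) with hLdef
  have hlogn : 0 < Real.log n := by
    by_contra hcon
    push Not at hcon
    have h0 : 0 ≤ Real.log (n : ℝ) := Real.log_natCast_nonneg n
    have h1 : Real.log (n : ℝ) = 0 := le_antisymm hcon h0
    rw [hLdef, h1, Real.log_zero] at hL
    linarith
  have hdL : (d : ℝ) ≤ Real.exp ((2 + ε) * L) := by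
    by_contra hcon
    push Not at hcon
    obtain ⟨m, hm1, hm2, hm3⟩ := hgap
    rw [Real.rpow_def_of_pos hlogn, mul_comm (Real.log (Real.log n))] at hm3
    have h1 : (m : ℝ) < n + d := by
      rw [← hLdef] at hm3
      linarith
    have h2 : m < n + d := by exact_mod_cast h1
    have h3 : 1 * d ≤ (k - 1) * d := Nat.mul_le_mul_right _ (by omega)
    have h4 := (hr (m - n) (by omega)).1 (by rwa [Nat.add_sub_cancel' hm2.le])
    exact absurd (Nat.le_of_dvd (by omega) h4) (by omega)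
  refine ⟨hdL, ?_⟩
  by_contra hcon
  push Not at hcon
  have hex : ∃ p, p.Prime ∧ p ≤ k ∧ ¬ p ∣ d := hcon
  set p := Nat.find hex with hpdef
  obtain ⟨hp, hpk, hpd⟩ : p.Prime ∧ p ≤ k ∧ ¬ p ∣ d := Nat.find_spec hex
  have hmin : ∀ q, q.Prime → q ≤ p - 1 → q ∣ d := by
    intro q hq hqp
    by_contra hqd
    have h0 := hp.pos
    exact Nat.find_min hex (show q < Nat.find hex by omega) ⟨hq, by omega, hqd⟩
  have hd0 : (0 : ℝ) < d := by exact_mod_cast hd
  have hlogd : Real.log d ≤ (2 + ε) * L := by rwa [Real.log_le_iff_le_exp hd0]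
  have hp1 : ((p - 1 : ℕ) : ℝ) ≤ K + 2 * (2 + ε) * L := by
    have hK0 : (0 : ℝ) ≤ K := Nat.cast_nonneg K
    have h00 : 0 ≤ 2 * (2 + ε) * L := by positivity
    rcases le_or_gt (p - 1) K with h1 | h1
    · have : ((p - 1 : ℕ) : ℝ) ≤ K := by exact_mod_cast h1
      linarith
    · have h2 := hK _ h1.le
      have h3 := prim_log hd hmin
      linarith
  have hpz : p ≤ z0 n := by
    have h1 : (p : ℝ) ≤ z0 n := by
      have h2 : ((p - 1 : ℕ) : ℝ) = p - 1 := by
        rw [Nat.cast_sub hp.one_le]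
        norm_num
      rw [h2] at hp1
      linarith
    exact_mod_cast h1
  -- the covering
  have := Fact.mk hp
  have hdp : (d : ZMod p) ≠ 0 := by
    rw [Ne, ZMod.natCast_eq_zero_iff]
    exact hpd
  set j := (((b p : ZMod p) - n) * (d : ZMod p)⁻¹).val with hj
  have hjp : j < p := ZMod.val_lt _
  have hjd : ((n + j * d : ℕ) : ZMod p) = (b p : ℕ) := by
    push_cast
    rw [hj, ZMod.natCast_val, ZMod.cast_id', id, mul_assoc, inv_mul_cancel₀ hdp]
    ring
  have hmod : (n + j * d) % p = b p := by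
    have h1 := (ZMod.natCast_eq_natCast_iff _ _ _).1 hjd
    unfold Nat.ModEq at h1
    rw [h1, Nat.mod_eq_of_lt (hb.1 p hp)]
  have hin : n + j * d ∈ R z0 b := (hr (j * d) (Nat.mul_le_mul_right _ (by omega))).2 (Dvd.intro_left j rfl)
  have hz : p ≤ z0 (n + j * d) := hpz.trans (Pool.Agent.T2H32.BF.z0_mono (Nat.le_add_right _ _))
  exact hin.2 p hz hp hmod

theorem run_shift {S : Set ℕ} {n d k : ℕ} (j : ℕ) (hj : j < k) (h : IsRun S n d k) : IsRun S (n + j * d) d (k - j) := by
  refine ⟨h.1, fun m hm => ?_⟩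
  have e : k - 1 = j + (k - j - 1) := by omega
  have h1 : j * d + m ≤ (k - 1) * d := by
    rw [e, add_mul]
    omega
  rw [add_assoc, h.2 _ h1]
  exact Nat.dvd_add_right (Dvd.intro_left j rfl)

/-- **The length of the runs: the upper bound.** -/
theorem run_le {b : ℕ → ℕ} (hb : Good b) (η : ℝ) (hη : 0 < η) (hη1 : η ≤ 1) : ∀ᶠ X : ℕ in atTop, ∀ n d k : ℕ,
    n + (k - 1) * d ≤ X → IsRun (R z0 b) n d k → (k : ℝ) ≤ (2 + η) * Real.log (Real.log X) := by
  set ε := η / 8 with hε
  have hε0 : 0 < ε := by positivity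
  have hε8 : ε ≤ 1 / 8 := by linarith
  obtain ⟨K, hK⟩ := eventually_atTop.1 (prim_lower ε hε0)
  obtain ⟨N, hN⟩ := eventually_atTop.1 ((run_dvd hb ε hε0).and ((Real.tendsto_log_atTop.comp
    (tendsto_natCast_atTop_atTop (R := ℝ))).eventually_ge_atTop 1))
  filter_upwards [ll_top.eventually_ge_atTop (2 / η * (N + K + 3))] with X hX n d k hnX hrun
  have hN0 : (0 : ℝ) ≤ N := Nat.cast_nonneg N
  have hK0 : (0 : ℝ) ≤ K := Nat.cast_nonneg K
  set L := Real.log (Real.log X) with hLdef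
  have hL1 : (N : ℝ) + K + 3 ≤ η / 2 * L := by
    have : η / 2 * (2 / η * (N + K + 3)) ≤ η / 2 * L := by gcongr
    refine le_trans (le_of_eq ?_) this
    field_simp
  have hL0 : 0 < L := lt_of_lt_of_le (by positivity) hX
  rcases le_or_gt k (N + K + 2) with h1 | h1
  · have h2 : (k : ℝ) ≤ N + K + 2 := by exact_mod_cast h1
    have e : (2 + η) * L = 2 * L + η / 2 * L + η / 2 * L := by ring
    rw [e]
    linarith
  · have hrun' := run_shift N (by omega) hrun
    have hd := hrun.1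
    have hn' : N ≤ n + N * d := by
      have : N * 1 ≤ N * d := Nat.mul_le_mul_left _ hd
      omega
    obtain ⟨hN1, hN2⟩ := hN _ hn'
    obtain ⟨h3, h4⟩ := hN1 d (k - N) (by omega) hrun'
    have hd0 : (0 : ℝ) < d := by exact_mod_cast hd
    have h5 := hK (k - N) (by omega)
    have h6 := prim_log hd h4
    have h7 : Real.log d ≤ (2 + ε) * Real.log (Real.log ((n + N * d : ℕ) : ℝ)) := by
      rwa [Real.log_le_iff_le_exp hd0]
    have h8 : n + N * d ≤ X := by
      refine le_trans ?_ hnX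
      have : N * d ≤ (k - 1) * d := Nat.mul_le_mul_right _ (by omega)
      omega
    have hN2' : 1 ≤ Real.log ((n + N * d : ℕ) : ℝ) := hN2
    have hpos : 0 < n + N * d := by
      by_contra hcon
      have : n + N * d = 0 := by omega
      rw [this] at hN2'
      norm_num at hN2'
    have h9 : Real.log (Real.log ((n + N * d : ℕ) : ℝ)) ≤ L := by
      apply Real.log_le_log (by linarith)
      apply Real.log_le_log (by exact_mod_cast hpos)
      exact_mod_cast h8
    have h10 : (2 + ε) * Real.log (Real.log ((n + N * d : ℕ) : ℝ)) ≤ (2 + ε) * L :=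
      mul_le_mul_of_nonneg_left h9 (by linarith)
    have h11 : (1 - ε) * ((k - N : ℕ) : ℝ) ≤ (2 + ε) * L := by linarith
    have h12 : (2 + ε) * L ≤ (1 - ε) * ((2 + η / 2) * L) := by
      have h13 : 2 + ε ≤ (1 - ε) * (2 + η / 2) := by
        have e : η = 8 * ε := by rw [hε]; ring
        rw [e]
        nlinarith
      have := mul_le_mul_of_nonneg_right h13 hL0.le
      rw [mul_assoc] at this
      exact this
    have h14 : ((k - N : ℕ) : ℝ) ≤ (2 + η / 2) * L := le_of_mul_le_mul_left (h11.trans h12) (by linarith)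
    have h15 : ((k - N : ℕ) : ℝ) = k - N := by
      rw [Nat.cast_sub (by omega)]
    rw [h15] at h14
    have e : (2 + η) * L = (2 + η / 2) * L + η / 2 * L := by ring
    rw [e]
    linarith

/-- **The length of the runs: the lower bound.** -/
theorem le_run {S : Set ℕ} (hS : Pat S) (η : ℝ) (hη : 0 < η) (hη1 : η ≤ 1) : ∀ᶠ X : ℕ in atTop, ∃ n d k : ℕ,
    1 ≤ n ∧ n + (k - 1) * d ≤ X ∧ IsRun S n d k ∧ (2 - η) * Real.log (Real.log X) ≤ k := by
  set ε := η / 16 with hε
  have hε0 : 0 < ε := by positivity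
  have hk : Tendsto (fun X : ℕ => ⌈(2 - η) * Real.log (Real.log X)⌉₊) atTop atTop :=
    tendsto_nat_ceil_atTop.comp (ll_top.const_mul_atTop (by linarith))
  have hlk : ∀ᶠ k : ℕ in atTop, Real.log k ≤ ε * k := by
    have h1 := Real.isLittleO_log_id_atTop.bound hε0
    have h2 := (tendsto_natCast_atTop_atTop (R := ℝ)).eventually h1
    filter_upwards [h2, eventually_ge_atTop 1] with k hk h3
    simp only [id, Real.norm_eq_abs] at hk
    have h4 : (1 : ℝ) ≤ k := by exact_mod_cast h3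
    rwa [abs_of_nonneg (Real.log_nonneg h4), abs_of_nonneg (by linarith)] at hk
  filter_upwards [exists_run hS (η / 2) (by positivity), hk.eventually (prim_upper ε hε0), hk.eventually hlk,
    hk.eventually_ge_atTop 1, ll_top.eventually_ge_atTop (8 / η)] with X h1 h2 h3 h4 h5
  set L := Real.log (Real.log X) with hL
  set k := ⌈(2 - η) * L⌉₊ with hkdef
  have hL0 : 0 < L := lt_of_lt_of_le (by positivity) h5
  have hkL : (k : ℝ) < (2 - η) * L + 1 := Nat.ceil_lt_add_one (mul_nonneg (by linarith) hL0.le)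
  have hkpos : (0 : ℝ) < k := by exact_mod_cast h4
  have hprim : (0 : ℝ) < primorial k := by exact_mod_cast primorial_pos k
  have hηL : 8 ≤ η * L := by
    rw [div_le_iff₀ hη] at h5
    linarith
  obtain ⟨n, hn1, hn2, hn3⟩ := h1 k (primorial k) h4 (primorial_pos k)
    (fun p hp hpk => by
      unfold primorial
      exact dvd_prod_of_mem _ (mem_filter.2 ⟨mem_range.2 (by omega), hp⟩)) (by
      have h6 : (((k - 1) * primorial k : ℕ) : ℝ) ≤ k * primorial k := by
        have : (k - 1) * primorial k ≤ k * primorial k := Nat.mul_le_mul_right _ (by omega)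
        exact_mod_cast this
      refine h6.trans ?_
      rw [← Real.log_le_iff_le_exp (by positivity), Real.log_mul hkpos.ne' hprim.ne']
      have h7 : Real.log k + Real.log (primorial k) ≤ (1 + 2 * ε) * k := by linarith
      have h8 : (1 + 2 * ε) * k ≤ (1 + 2 * ε) * ((2 - η) * L + 1) := mul_le_mul_of_nonneg_left hkL.le (by linarith)
      have h9 : (1 + 2 * ε) * ((2 - η) * L + 1) ≤ (2 - η / 2) * L := by
        have e : (1 + 2 * ε) * ((2 - η) * L + 1) = (2 - η) * L + η / 8 * ((2 - η) * L) + 1 + η / 8 := by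
          rw [hε]
          ring
        rw [e]
        have h10 : η / 8 * ((2 - η) * L) ≤ η / 8 * (2 * L) := by
          apply mul_le_mul_of_nonneg_left _ (by positivity)
          apply mul_le_mul_of_nonneg_right _ hL0.le
          linarith
        linarith
      linarith)
  exact ⟨n, primorial k, k, hn1, hn2, hn3, Nat.le_ceil _⟩

theorem longest_bdd {S : Set ℕ} (X : ℕ) : BddAbove {k : ℕ | ∃ n d, n + (k - 1) * d ≤ X ∧ IsRun S n d k} := by
  refine ⟨X + 1, ?_⟩
  rintro k ⟨n, d, h1, h2⟩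
  have h3 : (k - 1) * 1 ≤ (k - 1) * d := Nat.mul_le_mul_left _ h2.1
  omega

/-- **The longest run.** -/
theorem longest_lim {b : ℕ → ℕ} (hb : Good b) (hS : Pat (R z0 b)) :
    Tendsto (fun X : ℕ => (longest (R z0 b) X : ℝ) / Real.log (Real.log X)) atTop (𝓝 2) := by
  rw [Metric.tendsto_atTop']
  intro η hη
  set η' := min (η / 2) 1 with hη'
  have h0 : 0 < η' := lt_min (by positivity) one_pos
  have h1 : η' ≤ 1 := min_le_right _ _
  have h2 : η' < η := lt_of_le_of_lt (min_le_left _ _) (by linarith)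
  obtain ⟨N, hN⟩ := eventually_atTop.1 ((run_le hb η' h0 h1).and ((le_run hS η' h0 h1).and
    (ll_top.eventually_ge_atTop 1)))
  refine ⟨N, fun X hX => ?_⟩
  obtain ⟨h3, ⟨n, d, k, hn, hk1, hk2, hk3⟩, h4⟩ := hN X hX.le
  set L := Real.log (Real.log X) with hL
  have hL0 : 0 < L := by linarith
  have hmem : k ∈ {k : ℕ | ∃ n d, n + (k - 1) * d ≤ X ∧ IsRun (R z0 b) n d k} := ⟨n, d, hk1, hk2⟩
  have h5 : k ≤ longest (R z0 b) X := le_csSup (longest_bdd X) hmem
  obtain ⟨n', d', h6, h7⟩ := Nat.sSup_mem ⟨k, hmem⟩ (longest_bdd X)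
  have h8 := h3 n' d' _ h6 h7
  change (longest (R z0 b) X : ℝ) ≤ _ at h8
  have h9 : (k : ℝ) ≤ longest (R z0 b) X := by exact_mod_cast h5
  rw [Real.dist_eq, abs_lt]
  constructor
  · have : 2 - η' ≤ (longest (R z0 b) X : ℝ) / L := by
      rw [le_div_iff₀ hL0]
      linarith
    linarith
  · have : (longest (R z0 b) X : ℝ) / L ≤ 2 + η' := by
      rw [div_le_iff₀ hL0]
      linarith
    linarith

end Pool.Agent.H531.RU
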